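import Pool.Agent.Lib.MP_9a58dc_co.UB.Sys
import Pool.Agent.Lib.MP_9a58dc_co.Defs

section

/-!
The checker of the certificate for the local lemma.

An abstract item is a triple `(x, y, k)`: two `N`-labels and one `K`-label (labels of edges).  A state
is a list of items (the first one is the root) with the numbers of the labels used so far.
-/

set_option autoImplicit false

namespace Pool.Agent.Lib.MP_9a58dc_co.UB

/-- abstract item -/
abbrev Itm := ℕ × ℕ × ℕ

/-- state: the known items, number of `N`-labels, number of `K`-labels -/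
structure St where
  its : List Itm
  nN : ℕ
  nK : ℕ

/-- number of labels (`true`: `K`-labels) -/
def St.n (s : St) : Bool → ℕ
  | false => s.nN
  | true => s.nK

/-- the item has the label `a` -/
def has : Bool → ℕ → Itm → Bool
  | false, a, t => t.1 == a || t.2.1 == a
  | true, a, t => t.2.2 == a

/-- number of known items with the label `a` -/
def deg (c : Bool) (l : List Itm) (a : ℕ) : ℕ := (l.filter (has c a)).length

/-- the two items share a label -/
def share (s t : Itm) : Bool := has false s.1 t || has false s.2.1 t || has true s.2.2 t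

/-- use the label `a` -/
def bump (s : St) : Bool → ℕ → St
  | false, a => ⟨s.its, if a == s.nN then s.nN + 1 else s.nN, s.nK⟩
  | true, a => ⟨s.its, s.nN, if a == s.nK then s.nK + 1 else s.nK⟩

/-- a new item -/
def push (s : St) (t : Itm) : St := ⟨s.its ++ [t], s.nN, s.nK⟩

/-- possible labels of a new item -/
def opts (s : St) (c : Bool) : List ℕ :=
  (List.range (s.n c + 1)).filter fun a => a == s.n c || decide (deg c s.its a < 3)

/-- the possible states after revealing a new item with the `N`-label `b` -/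
def extN (s : St) (b : ℕ) : List St :=
  ((opts s false).filter fun y => y != b).flatMap fun y =>
    (opts (bump s false y) true).map fun k => push (bump (bump s false y) true k) (b, y, k)

/-- the possible states after revealing a new item with the `K`-label `k` -/
def extK (s : St) (k : ℕ) : List St :=
  (opts s false).flatMap fun x =>
    ((opts (bump s false x) false).filter fun y => decide (x < y)).map fun y =>
      push (bump (bump s false x) false y) (x, y, k)

/-- the states after revealing a new item in the first incomplete edge -/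
def exts (s : St) : List Itm → Option (List St)
  | [] => none
  | t :: l =>
    if decide (deg false s.its t.1 < 3) then
      if share (0, 1, 0) t then some (extN s t.1) else none
    else if decide (deg false s.its t.2.1 < 3) then
      if share (0, 1, 0) t then some (extN s t.2.1) else none
    else if decide (deg true s.its t.2.2 < 3) then
      if share (0, 1, 0) t then some (extK s t.2.2) else none
    else exts s l

/-- selection by a bit mask -/
def sel {α : Type} : List α → ℕ → List α
  | [], _ => []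
  | a :: l, m => if m % 2 == 1 then a :: sel l (m / 2) else sel l (m / 2)

/-- insertion without repetition -/
def ins (a : ℕ) (l : List ℕ) : List ℕ := if l.elem a then l else a :: l

/-- the `N`-labels of some items -/
def labN : List Itm → List ℕ
  | [] => []
  | t :: l => ins t.1 (ins t.2.1 (labN l))

/-- the `K`-labels of some items -/
def labK : List Itm → List ℕ
  | [] => []
  | t :: l => ins t.2.2 (labK l)

/-- the selected items gain -/
def gainOK (s : St) (m : ℕ) : Bool :=
  decide ((sel s.its m).length ≤ 3) &&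
  (sel s.its m).all (fun t => s.its.any fun u => share (0, 1, 0) u && share u t) &&
  decide (4 * (sel s.its m).length + 1 ≤ (labN (sel s.its m)).length + (labK (sel s.its m)).length +
    (s.its.filter fun t => (labN (sel s.its m)).elem t.1 && (labN (sel s.its m)).elem t.2.1 &&
      (labK (sel s.its m)).elem t.2.2).length)

/-- run the certificate on a stack of states -/
def run : List ℕ → List St → Bool
  | [], st => st.isEmpty
  | _ :: _, [] => false
  | c :: cs, s :: ss =>
    if c == 0 then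
      match exts s s.its with
      | none => false
      | some l => run cs (l ++ ss)
    else if gainOK s c then run cs ss else false

end Pool.Agent.Lib.MP_9a58dc_co.UB
end

section

/-! The certificate of the local lemma. -/

set_option autoImplicit false

namespace Pool.Agent.Lib.MP_9a58dc_co.UB

/-- the certificate: `0`: reveal a new item; otherwise the mask of the chosen items -/
def cert : List ℕ := [
0, 1, 0, 1, 2, 0, 10, 0, 6, 9, 0, 18, 18, 0, 17, 17, 17, 17, 12, 12, 0, 5, 5, 0,
18, 18, 12, 0, 18, 18, 18, 18, 12, 0, 0, 18, 18, 0, 18, 18, 0, 18, 18, 0, 18, 18, 12, 12,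
0, 18, 18, 18, 18, 0, 18, 18, 18, 18, 0, 1, 0, 6, 9, 0, 20, 20, 0, 17, 17, 17, 17, 10,
10, 2, 0, 5, 5, 0, 20, 18, 18, 18, 12, 10, 10, 0, 12, 10, 10, 0, 12, 0, 9, 8, 20, 0,
33, 33, 33, 33, 18, 18, 20, 18, 18, 0, 9, 12, 8, 0, 44, 44, 0, 12, 12, 33, 33, 33, 33, 18,
18, 18, 20, 18, 18, 18, 0, 0, 33, 33, 33, 33, 0, 20, 20, 33, 33, 33, 33, 5, 18, 18, 18, 10,
10, 12, 10, 10, 0, 1, 0, 3, 3, 0, 20, 20, 10, 0, 20, 20, 20, 20, 10, 0, 0, 20, 20, 0,
20, 20, 0, 20, 20, 0, 20, 20, 10, 0, 20, 20, 20, 20, 10, 0, 20, 20, 20, 20, 0, 3, 3, 0,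
18, 20, 18, 20, 10, 12, 12, 2, 0, 0, 18, 20, 18, 0, 50, 50, 0, 18, 20, 18, 18, 0, 18, 20,
18, 20, 0, 18, 20, 18, 18, 0, 0, 32, 0, 132, 132, 132, 132, 80, 82, 50, 10, 12, 10, 0, 0, 42,
42, 10, 12, 10, 0, 0, 32, 0, 132, 132, 132, 132, 72, 74, 42, 18, 10, 18, 8, 0, 0, 74, 0, 66,
0, 132, 132, 132, 132, 66, 74, 0, 34, 0, 132, 132, 132, 132, 72, 74, 42, 18, 20, 18, 0, 48, 40, 0,
74, 66, 80, 66, 72, 66, 74, 42, 48, 40, 42, 0, 0, 66, 66, 74, 74, 0, 66, 82, 66, 74, 0, 0,
66, 132, 132, 132, 132, 132, 132, 66, 82, 66, 74, 66, 74, 0, 34, 34, 0, 34, 132, 132, 132, 132, 132, 132,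
32, 80, 72, 74, 50, 42, 42, 0, 0, 3, 20, 0, 33, 33, 33, 33, 0, 18, 18, 33, 33, 33, 33, 20,
20, 12, 12, 10, 0, 0, 33, 33, 33, 33, 20, 20, 9, 8, 18, 18, 20, 20, 0, 0, 10, 10, 33, 33,
33, 33, 10, 10, 20, 9, 10, 8, 0, 42, 42, 18, 20, 20, 20, 10, 12, 12, 0, 12, 0, 3, 20, 18,
18, 18, 18, 12, 10, 0, 20, 20, 5, 18, 18, 20, 10, 10, 0, 20, 20, 18, 18, 18, 18, 18, 0, 50,
36, 36, 36, 34, 34, 34, 50, 50, 0, 82, 68, 34, 34, 68, 66, 66, 66, 66, 40, 40, 82, 32, 0, 137,
137, 132, 132, 132, 132, 132, 132, 132, 132, 80, 82, 50, 0, 20, 10, 10, 20, 18, 12, 18, 18, 18, 10, 8,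
0, 42, 36, 36, 34, 34, 0, 74, 34, 68, 66, 66, 72, 74, 42, 18, 0, 42, 36, 36, 36, 34, 34, 34,
42, 0, 74, 34, 68, 34, 68, 66, 66, 66, 66, 48, 32, 0, 145, 145, 132, 132, 132, 132, 132, 132, 132, 132,
72, 74, 72, 74, 42, 42, 0, 42, 36, 36, 36, 34, 34, 34, 42, 48, 40, 42, 0, 42, 36, 36, 36, 34,
34, 34, 0, 74, 34, 34, 68, 66, 66, 66, 32, 80, 72, 74, 50, 42, 42, 0, 12, 12, 0, 20, 20, 8,
20, 18, 0, 7, 52, 42, 0, 7, 34, 34, 84, 36, 36, 74, 32, 0, 129, 129, 0, 34, 66, 268, 268, 320,
288, 268, 34, 40, 148, 34, 40, 192, 66, 72, 160, 129, 129, 148, 0, 129, 129, 0, 34, 268, 320, 66, 268, 288,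
268, 34, 40, 192, 34, 40, 148, 66, 72, 160, 129, 129, 148, 0, 129, 129, 0, 34, 268, 268, 268, 268, 268, 268,
66, 268, 268, 268, 34, 40, 148, 34, 40, 148, 66, 72, 148, 66, 72, 148, 129, 129, 148, 18, 0, 0, 76, 52,
42, 50, 18, 0, 52, 52, 52, 42, 42, 42, 52, 18, 0, 52, 52, 52, 42, 42, 0, 44, 34, 34, 84, 36,
36, 74, 32, 0, 129, 129, 22, 0, 320, 288, 265, 273, 320, 288, 385, 34, 40, 192, 192, 66, 72, 160, 160, 129,
129, 0, 320, 288, 265, 265, 273, 320, 320, 288, 288, 0, 576, 544, 260, 260, 521, 529, 288, 288, 576, 544, 544, 544,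
256, 0, 36, 1088, 1088, 68, 1056, 1056, 1025, 1536, 1536, 1025, 1280, 1280, 1025, 1064, 0, 36, 2112, 1056, 2112, 68, 2080, 2080,
2080, 2049, 2560, 1280, 2560, 2049, 2304, 2304, 2304, 2049, 1040, 1024, 0, 4113, 4160, 4160, 4160, 4160, 4128, 4128, 4128, 4128, 4226, 4608,
4608, 4352, 4352, 4225, 4225, 2049, 2088, 0, 4113, 4160, 4160, 4160, 4160, 4160, 4128, 4128, 4128, 4128, 4128, 4226, 4608, 4608, 4608, 4352,
4352, 4352, 5121, 6144, 5120, 4225, 0, 4113, 4160, 4160, 4160, 4160, 4160, 4128, 4128, 4128, 4128, 4128, 4226, 4608, 4608, 4608, 4352, 4352,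
4352, 4225, 4225, 4225, 4225, 640, 641, 385, 148, 80, 82, 50, 0, 20, 20, 12, 8, 0, 0, 32, 0, 133, 192, 160,
140, 68, 76, 44, 18, 0, 0, 82, 52, 42, 44, 18, 18, 0, 0, 82, 0, 66, 0, 137, 137, 140, 140, 66,
82, 0, 34, 0, 137, 140, 137, 140, 68, 82, 50, 18, 0, 52, 52, 52, 42, 0, 34, 50, 34, 84, 48, 32,
0, 129, 28, 129, 0, 48, 80, 257, 261, 320, 288, 385, 34, 192, 40, 192, 66, 160, 72, 160, 129, 0, 48, 80,
257, 257, 261, 320, 320, 288, 288, 268, 385, 129, 148, 68, 74, 68, 76, 42, 44, 0, 50, 44, 0, 82, 66, 82,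
66, 76, 66, 82, 50, 50, 44, 50, 18, 0, 0, 66, 66, 76, 82, 0, 66, 82, 66, 82, 52, 0, 34, 34,
84, 32, 80, 68, 82, 50, 44, 50, 10, 0, 20, 20, 0, 7, 44, 50, 0, 7, 34, 34, 76, 36, 36, 82,
32, 0, 129, 129, 0, 34, 66, 276, 276, 320, 288, 276, 34, 48, 140, 34, 48, 192, 66, 80, 160, 129, 129, 140,
0, 129, 129, 0, 34, 276, 320, 66, 276, 288, 276, 34, 48, 192, 34, 48, 140, 66, 80, 160, 129, 129, 140, 0,
129, 129, 0, 34, 276, 276, 276, 276, 276, 276, 66, 276, 276, 276, 34, 48, 140, 34, 48, 140, 66, 80, 140, 66,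
80, 140, 129, 129, 140, 0, 0, 74, 44, 50, 52, 18, 8, 18, 18, 18, 20, 0, 50, 44, 44, 50, 50, 44,
50, 0, 50, 44, 44, 50, 50, 0, 42, 34, 34, 76, 36, 36, 82, 32, 0, 129, 129, 22, 0, 34, 320, 320,
260, 320, 66, 288, 288, 260, 288, 257, 265, 296, 260, 0, 529, 576, 576, 544, 544, 641, 641, 34, 192, 192, 192, 66,
160, 160, 160, 129, 137, 168, 0, 257, 257, 22, 132, 0, 529, 576, 576, 544, 544, 769, 641, 34, 320, 320, 160, 320,
66, 288, 288, 288, 288, 257, 132, 144, 128, 0, 40, 72, 513, 513, 529, 576, 576, 544, 544, 532, 641, 257, 265, 296,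
0, 40, 72, 513, 513, 513, 529, 576, 576, 576, 544, 544, 544, 641, 768, 640, 641, 0, 40, 72, 513, 513, 513, 529,
576, 576, 576, 544, 544, 544, 532, 769, 641, 641, 80, 82, 50, 10, 0, 20, 10, 0, 0, 84, 44, 50, 42, 10,
0, 0, 74, 0, 66, 0, 145, 145, 148, 148, 66, 74, 0, 34, 0, 145, 148, 145, 148, 68, 74, 42, 18, 10,
18, 8, 0, 0, 32, 0, 164, 192, 160, 164, 66, 74, 42, 18, 0, 52, 42, 52, 42, 0, 74, 34, 84, 68,
74, 68, 74, 42, 42, 0, 50, 44, 0, 36, 48, 32, 0, 26, 192, 160, 0, 320, 288, 260, 292, 292, 260, 320,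
260, 288, 260, 292, 192, 160, 164, 164, 192, 160, 164, 82, 66, 82, 66, 76, 66, 74, 50, 50, 44, 42, 20, 0,
0, 68, 68, 74, 74, 0, 36, 32, 80, 66, 82, 66, 74, 52, 0, 34, 84, 68, 74, 50, 42, 42, 10, 0,
20, 20, 0, 44, 44, 44, 50, 50, 50, 44, 0, 44, 44, 44, 50, 0, 34, 42, 34, 76, 40, 32, 0, 129,
28, 129, 0, 40, 72, 257, 261, 320, 288, 385, 34, 192, 48, 192, 66, 160, 80, 160, 129, 0, 40, 72, 257, 257,
261, 320, 320, 288, 288, 276, 385, 129, 140, 68, 82, 68, 76, 50, 44, 18, 12, 18, 0, 44, 50, 44, 50, 0,
42, 34, 76, 68, 82, 68, 82, 50, 50, 18, 8, 18, 18, 18, 0, 44, 48, 40, 44, 48, 40, 0, 34, 80,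
72, 34, 76, 40, 72, 32, 0, 144, 144, 136, 136, 192, 192, 160, 160, 0, 136, 272, 264, 264, 160, 320, 288, 288,
128, 260, 0, 515, 528, 528, 528, 528, 528, 268, 140, 76, 68, 80, 68, 72, 68, 76, 44, 48, 40, 44, 0, 50,
50, 44, 44, 50, 50, 50, 50, 50, 44, 50, 0, 44, 50, 44, 44, 50, 0, 34, 42, 34, 76, 40, 32, 80,
68, 82, 68, 82, 50, 50, 50, 44, 50, 0, 20, 10, 10, 0, 42, 52, 0, 74, 66, 74, 66, 84, 66, 74,
42, 42, 52, 42, 18, 0, 42, 52, 52, 42, 42, 52, 42, 18, 0, 42, 52, 0, 36, 40, 32, 0, 26, 192,
160, 0, 320, 288, 260, 292, 292, 260, 320, 260, 288, 260, 292, 192, 160, 164, 164, 192, 160, 164, 74, 66, 74, 66,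
84, 66, 74, 42, 42, 52, 42, 18, 10, 8, 20, 18, 0, 42, 52, 42, 52, 42, 42, 42, 42, 52, 42, 42,
0, 42, 48, 40, 0, 36, 40, 72, 32, 0, 144, 136, 192, 160, 0, 136, 264, 160, 288, 128, 0, 517, 528, 528,
528, 528, 528, 261, 272, 272, 260, 272, 264, 264, 260, 264, 292, 260, 320, 260, 288, 260, 292, 133, 144, 144, 144, 136,
136, 136, 164, 192, 160, 164, 80, 72, 66, 74, 74, 66, 80, 66, 72, 66, 74, 48, 40, 42, 42, 48, 40, 42,
0, 42, 52, 0, 36, 40, 32, 80, 74, 66, 74, 66, 82, 66, 74, 52, 42, 42, 42, 52, 50, 42, 42, 0,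
20, 10, 0, 44, 44, 44, 50, 50, 0, 76, 34, 34, 76, 36, 36, 82, 32, 0, 129, 129, 14, 0, 320, 288,
273, 265, 320, 288, 385, 34, 48, 192, 192, 66, 80, 160, 160, 129, 129, 0, 320, 288, 273, 273, 265, 320, 320, 288,
288, 0, 576, 544, 260, 260, 529, 521, 288, 288, 576, 544, 544, 544, 256, 0, 36, 1088, 1088, 68, 1056, 1056, 1025, 1536,
1536, 1025, 1280, 1280, 1025, 1072, 0, 36, 2112, 1056, 2112, 68, 2080, 2080, 2080, 2049, 2560, 1280, 2560, 2049, 2304, 2304, 2304, 2049,
1032, 1024, 0, 4105, 4160, 4160, 4160, 4160, 4128, 4128, 4128, 4128, 4226, 4608, 4608, 4352, 4352, 4225, 4225, 2049, 2096, 0, 4105, 4160,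
4160, 4160, 4160, 4160, 4128, 4128, 4128, 4128, 4128, 4226, 4608, 4608, 4608, 4352, 4352, 4352, 5121, 6144, 5120, 4225, 0, 4105, 4160, 4160,
4160, 4160, 4160, 4128, 4128, 4128, 4128, 4128, 4226, 4608, 4608, 4608, 4352, 4352, 4352, 4225, 4225, 4225, 4225, 640, 641, 385, 140, 72,
74, 42, 10, 0, 0, 66, 66, 84, 74, 0, 66, 74, 66, 74, 44, 0, 34, 34, 76, 32, 72, 68, 74, 42,
52, 42, 18, 0, 42, 52, 52, 42, 42, 0, 74, 34, 34, 84, 36, 36, 74, 32, 0, 129, 129, 14, 0, 34,
320, 320, 260, 320, 66, 288, 288, 260, 288, 257, 273, 304, 260, 0, 521, 576, 576, 544, 544, 641, 641, 34, 192, 192,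
192, 66, 160, 160, 160, 129, 145, 176, 0, 257, 257, 14, 132, 0, 521, 576, 576, 544, 544, 769, 641, 34, 320, 320,
160, 320, 66, 288, 288, 288, 288, 257, 132, 136, 128, 0, 48, 80, 513, 513, 521, 576, 576, 544, 544, 524, 641, 257,
273, 304, 0, 48, 80, 513, 513, 513, 521, 576, 576, 576, 544, 544, 544, 641, 768, 640, 641, 0, 48, 80, 513, 513,
513, 521, 576, 576, 576, 544, 544, 544, 524, 769, 641, 641, 72, 74, 42, 18, 12, 0, 0, 68, 68, 82, 74, 0,
36, 32, 72, 66, 74, 66, 74, 44, 0, 34, 76, 68, 74, 42, 50, 42, 18, 10, 12, 8, 0, 0, 32, 68,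
68, 66, 66, 0, 129, 129, 40, 48, 129, 66, 70, 144, 136, 0, 70, 385, 296, 385, 129, 0, 70, 385, 385, 292,
385, 292, 385, 144, 136, 196, 74, 0, 36, 72, 74, 74, 44, 0, 34, 76, 72, 74, 42, 0, 0, 129, 129, 72,
80, 129, 34, 38, 144, 136, 0, 38, 385, 328, 385, 129, 0, 38, 385, 385, 324, 385, 324, 385, 144, 136, 164, 34,
76, 36, 74, 72, 74, 42, 18, 0, 52, 52, 42, 44, 0, 34, 34, 74, 76, 32, 72, 72, 68, 68, 74, 74,
42, 42, 42, 52, 42, 42, 0, 50, 0, 36, 32, 72, 72, 66, 82, 74, 66, 66, 74, 74, 44, 44, 50, 50,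
42, 44, 50, 42, 42, 0, 0, 32, 68, 68, 68, 66, 66, 66, 74, 80, 72, 74, 48, 40, 44, 48, 40, 42,
42, 48, 40, 42, 0, 0, 32, 68, 68, 68, 66, 66, 66, 0, 129, 129, 40, 48, 129, 10, 70, 10, 82, 0,
70, 385, 385, 385, 18, 70, 74, 18, 0, 70, 385, 385, 385, 129, 0, 70, 70, 385, 385, 66, 292, 385, 292, 385,
292, 385, 196, 196, 196, 82, 74, 74, 52, 44, 44, 50, 42, 42, 0, 0, 129, 129, 72, 80, 129, 10, 38, 10,
50, 0, 38, 385, 385, 385, 18, 38, 42, 18, 0, 38, 385, 385, 385, 129, 0, 38, 38, 385, 385, 34, 324, 385,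
324, 385, 324, 385, 164, 164, 164, 34, 34, 76, 36, 36, 74, 32, 80, 72, 74, 50, 42, 42]

theorem cert_ok : run cert [⟨[(0, 1, 0)], 2, 1⟩] = true := by
  decide +kernel

end Pool.Agent.Lib.MP_9a58dc_co.UB
end

section

/-!
Soundness of the checker.
-/

set_option autoImplicit false
set_option linter.unusedSectionVars false

namespace Pool.Agent.Lib.MP_9a58dc_co.UB

open Finset

variable {V I : Type} [Fintype V] [DecidableEq V] [DecidableEq I] (S : Sys V I) (K : Finset I)

/-- the item is in exactly one edge of `K` -/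
def Sys.good (v : V) : Prop := (S.inc v ∩ K).card = 1

/-- the conclusion of the local lemma -/
def Concl (v₀ : V) : Prop :=
  ∃ T : Finset V, T.card ≤ 3 ∧ T ⊆ S.ball v₀ 2 ∧
    4 * T.card + 1 ≤ (T.biUnion S.inc).card + (univ.filter fun v => S.inc v ⊆ T.biUnion S.inc).card

/-- the abstract item `t` describes `v` -/
def Rel (φ : Bool → ℕ → I) (t : Itm) (v : V) : Prop :=
  S.inc v = {φ false t.1, φ false t.2.1, φ true t.2.2}

/-- the state is realized -/
structure Real (v₀ : V) (s : St) (gs : List V) (φ : Bool → ℕ → I) : Prop where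
  rt : S.inc v₀ = {φ false 0, φ false 1, φ true 0}
  n0 : 2 ≤ s.nN
  k0 : 1 ≤ s.nK
  rel : List.Forall₂ (Rel S φ) s.its gs
  lt : ∀ t ∈ s.its, t.1 < s.nN ∧ t.2.1 < s.nN ∧ t.2.2 < s.nK
  nd : gs.Nodup
  inj : ∀ c, ∀ a < s.n c, ∀ b < s.n c, φ c a = φ c b → a = b
  typ : ∀ c, ∀ a < s.n c, (φ c a ∈ K ↔ c = true)

variable {S K} {v₀ : V} {s : St} {gs : List V} {φ : Bool → ℕ → I}

/-! ### lists -/

theorem f2_left {α β : Type} {R : α → β → Prop} {l : List α} {l' : List β}
    (h : List.Forall₂ R l l') : ∀ a ∈ l, ∃ b ∈ l', R a b := by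
  induction h with
  | nil => intro a ha; cases ha
  | @cons a b l l' hab _ ih =>
    intro x hx
    rcases List.mem_cons.1 hx with rfl | hx
    · exact ⟨b, List.mem_cons_self, hab⟩
    · obtain ⟨y, hy, hxy⟩ := ih x hx
      exact ⟨y, List.mem_cons_of_mem _ hy, hxy⟩

theorem f2_right {α β : Type} {R : α → β → Prop} {l : List α} {l' : List β}
    (h : List.Forall₂ R l l') : ∀ b ∈ l', ∃ a ∈ l, R a b := by
  induction h with
  | nil => intro a ha; cases ha
  | @cons a b l l' hab _ ih =>
    intro x hx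
    rcases List.mem_cons.1 hx with rfl | hx
    · exact ⟨a, List.mem_cons_self, hab⟩
    · obtain ⟨y, hy, hxy⟩ := ih x hx
      exact ⟨y, List.mem_cons_of_mem _ hy, hxy⟩

/-- the members of the second list whose partners satisfy `p` -/
theorem f2_filter {α β : Type} {R : α → β → Prop} (p : α → Bool) {l : List α} {l' : List β}
    (h : List.Forall₂ R l l') : ∃ m : List β, m.Sublist l' ∧ m.length = (l.filter p).length ∧
      (∀ b ∈ m, ∃ a ∈ l, p a = true ∧ R a b) ∧
      ∀ b ∈ l', (∀ a ∈ l, R a b → p a = true) → b ∈ m := by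
  induction h with
  | nil => exact ⟨[], List.Sublist.refl _, rfl, by simp, by simp⟩
  | @cons a b l l' hab _ ih =>
    obtain ⟨m, h1, h2, h3, h4⟩ := ih
    by_cases hp : p a = true
    · refine ⟨b :: m, h1.cons_cons b, ?_, ?_, ?_⟩
      · rw [List.filter_cons_of_pos hp, List.length_cons, List.length_cons, h2]
      · intro x hx
        rcases List.mem_cons.1 hx with rfl | hx
        · exact ⟨a, List.mem_cons_self, hp, hab⟩
        · obtain ⟨y, hy, h5⟩ := h3 x hx
          exact ⟨y, List.mem_cons_of_mem _ hy, h5⟩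
      · intro x hx h5
        rcases List.mem_cons.1 hx with rfl | hx
        · exact List.mem_cons_self
        · exact List.mem_cons_of_mem _ (h4 x hx fun y hy => h5 y (List.mem_cons_of_mem _ hy))
    · refine ⟨m, h1.cons b, ?_, ?_, ?_⟩
      · rw [List.filter_cons_of_neg hp, h2]
      · intro x hx
        obtain ⟨y, hy, h5⟩ := h3 x hx
        exact ⟨y, List.mem_cons_of_mem _ hy, h5⟩
      · intro x hx h5
        rcases List.mem_cons.1 hx with rfl | hx
        · exact absurd (h5 a List.mem_cons_self hab) hp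
        · exact h4 x hx fun y hy => h5 y (List.mem_cons_of_mem _ hy)

theorem f2_sel {α β : Type} {R : α → β → Prop} {l : List α} {l' : List β}
    (h : List.Forall₂ R l l') : ∀ m, List.Forall₂ R (sel l m) (sel l' m) := by
  induction h with
  | nil => intro m; exact List.Forall₂.nil
  | @cons a b l l' hab _ ih =>
    intro m
    unfold sel
    split_ifs
    · exact List.Forall₂.cons hab (ih _)
    · exact ih _

theorem sel_sub {α : Type} (l : List α) : ∀ m, (sel l m).Sublist l := by
  induction l with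
  | nil => intro m; exact List.Sublist.refl _
  | cons a l ih =>
    intro m
    unfold sel
    split_ifs
    · exact (ih _).cons_cons a
    · exact (ih _).cons a

theorem mem_ins {a b : ℕ} {l : List ℕ} : b ∈ ins a l ↔ b = a ∨ b ∈ l := by
  unfold ins
  split_ifs with h
  · rw [List.elem_iff] at h
    constructor
    · exact Or.inr
    · rintro (rfl | h')
      · exact h
      · exact h'
  · exact List.mem_cons

theorem nodup_ins {a : ℕ} {l : List ℕ} (h : l.Nodup) : (ins a l).Nodup := by
  unfold ins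
  split_ifs with h'
  · exact h
  · rw [List.nodup_cons]
    exact ⟨fun h2 => h' (List.elem_iff.2 h2), h⟩

theorem mem_labN {l : List Itm} {a : ℕ} : a ∈ labN l ↔ ∃ t ∈ l, a = t.1 ∨ a = t.2.1 := by
  induction l with
  | nil => simp [labN]
  | cons t l ih =>
    rw [labN, mem_ins, mem_ins, ih]
    constructor
    · rintro (h | h | ⟨u, hu, h⟩)
      · exact ⟨t, List.mem_cons_self, Or.inl h⟩
      · exact ⟨t, List.mem_cons_self, Or.inr h⟩
      · exact ⟨u, List.mem_cons_of_mem _ hu, h⟩
    · rintro ⟨u, hu, h⟩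
      rcases List.mem_cons.1 hu with rfl | hu
      · rcases h with h | h
        · exact Or.inl h
        · exact Or.inr (Or.inl h)
      · exact Or.inr (Or.inr ⟨u, hu, h⟩)

theorem mem_labK {l : List Itm} {a : ℕ} : a ∈ labK l ↔ ∃ t ∈ l, a = t.2.2 := by
  induction l with
  | nil => simp [labK]
  | cons t l ih =>
    rw [labK, mem_ins, ih]
    constructor
    · rintro (h | ⟨u, hu, h⟩)
      · exact ⟨t, List.mem_cons_self, h⟩
      · exact ⟨u, List.mem_cons_of_mem _ hu, h⟩
    · rintro ⟨u, hu, h⟩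
      rcases List.mem_cons.1 hu with rfl | hu
      · exact Or.inl h
      · exact Or.inr ⟨u, hu, h⟩

theorem nodup_labN (l : List Itm) : (labN l).Nodup := by
  induction l with
  | nil => exact List.nodup_nil
  | cons t l ih => exact nodup_ins (nodup_ins ih)

theorem nodup_labK (l : List Itm) : (labK l).Nodup := by
  induction l with
  | nil => exact List.nodup_nil
  | cons t l ih => exact nodup_ins ih

/-! ### realized states -/

theorem Rel.mem_iff {t : Itm} {v : V} (h : Rel S φ t v) (i : I) :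
    i ∈ S.inc v ↔ i = φ false t.1 ∨ i = φ false t.2.1 ∨ i = φ true t.2.2 := by
  unfold Rel at h
  rw [h]
  simp

theorem Real.has_iff (h : Real S K v₀ s gs φ) {t : Itm} (ht : t ∈ s.its) {v : V}
    (hr : Rel S φ t v) {c : Bool} {a : ℕ} (ha : a < s.n c) :
    has c a t = true ↔ φ c a ∈ S.inc v := by
  obtain ⟨h1, h2, h3⟩ := h.lt t ht
  rw [hr.mem_iff]
  cases c with
  | false =>
    simp only [has, Bool.or_eq_true, beq_iff_eq]
    constructor
    · rintro (h4 | h4)
      · exact Or.inl (by rw [h4])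
      · exact Or.inr (Or.inl (by rw [h4]))
    · rintro (h4 | h4 | h4)
      · exact Or.inl (h.inj false a ha _ h1 h4).symm
      · exact Or.inr (h.inj false a ha _ h2 h4).symm
      · have h5 := (h.typ true _ h3).2 rfl
        rw [← h4] at h5
        have h6 := (h.typ false a ha).1 h5
        cases h6
  | true =>
    simp only [has, beq_iff_eq]
    constructor
    · intro h4
      exact Or.inr (Or.inr (by rw [h4]))
    · rintro (h4 | h4 | h4)
      · have h5 := (h.typ true a ha).2 rfl
        rw [h4] at h5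
        have h6 := (h.typ false _ h1).1 h5
        cases h6
      · have h5 := (h.typ true a ha).2 rfl
        rw [h4] at h5
        have h6 := (h.typ false _ h2).1 h5
        cases h6
      · exact (h.inj true a ha _ h3 h4).symm

/-- a new item in an old edge: the edge was not complete -/
theorem Real.deg_lt (h : Real S K v₀ s gs φ) {c : Bool} {a : ℕ} (ha : a < s.n c) {v : V}
    (hv : v ∉ gs) (hva : φ c a ∈ S.inc v) : deg c s.its a < 3 := by
  obtain ⟨m, h1, h2, h3, _⟩ := f2_filter (has c a) h.rel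
  have hnd : m.Nodup := h.nd.sublist h1
  have hsub : insert v m.toFinset ⊆ S.it (φ c a) := by
    intro w hw
    rcases mem_insert.1 hw with rfl | hw
    · exact (S.mem _ _).1 hva
    · obtain ⟨t, ht, hp, hr⟩ := h3 w (List.mem_toFinset.1 hw)
      exact (S.mem _ _).1 ((h.has_iff ht hr ha).1 hp)
  have hcard := card_le_card hsub
  rw [S.it3, card_insert_of_notMem (fun h4 => hv (h1.subset (List.mem_toFinset.1 h4))),
    List.toFinset_card_of_nodup hnd, h2] at hcard
  unfold deg
  omega

/-- an incomplete edge contains a new item -/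
theorem Real.exists_new (h : Real S K v₀ s gs φ) {c : Bool} {a : ℕ} (ha : a < s.n c)
    (hd : deg c s.its a < 3) : ∃ v, v ∉ gs ∧ φ c a ∈ S.inc v := by
  by_contra hcon
  push Not at hcon
  obtain ⟨m, h1, h2, _, h4⟩ := f2_filter (has c a) h.rel
  have hnd : m.Nodup := h.nd.sublist h1
  have hsub : S.it (φ c a) ⊆ m.toFinset := by
    intro v hv
    have hv' : φ c a ∈ S.inc v := (S.mem _ _).2 hv
    have hvg : v ∈ gs := by
      by_contra h5
      exact hcon v h5 hv'
    exact List.mem_toFinset.2 (h4 v hvg fun t ht hr => (h.has_iff ht hr ha).2 hv')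
  have hcard := card_le_card hsub
  rw [S.it3, List.toFinset_card_of_nodup hnd, h2] at hcard
  unfold deg at hd
  omega

/-- the function `φ` with one more value -/
def upd (φ : Bool → ℕ → I) (c : Bool) (n : ℕ) (p : I) : Bool → ℕ → I :=
  fun c' a => if c' = c ∧ a = n then p else φ c' a

theorem upd_self (φ : Bool → ℕ → I) (c : Bool) (n : ℕ) (p : I) : upd φ c n p c n = p := by
  unfold upd
  rw [if_pos ⟨rfl, rfl⟩]

theorem upd_ne {φ : Bool → ℕ → I} {c c' : Bool} {n a : ℕ} {p : I} (h : c' = c → a ≠ n) :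
    upd φ c n p c' a = φ c' a := by
  unfold upd
  rw [if_neg]
  rintro ⟨h1, h2⟩
  exact h h1 h2

theorem bump_new (s : St) (c c' : Bool) :
    (bump s c (s.n c)).n c' = if c' = c then s.n c + 1 else s.n c' := by
  cases c <;> cases c' <;> simp [bump, St.n]

theorem bump_old {s : St} {c : Bool} {a : ℕ} (h : a < s.n c) : bump s c a = s := by
  cases c
  · simp only [St.n] at h
    simp only [bump, beq_iff_eq]
    rw [if_neg (by omega)]
  · simp only [St.n] at h
    simp only [bump, beq_iff_eq]
    rw [if_neg (by omega)]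

theorem bump_its (s : St) (c : Bool) (a : ℕ) : (bump s c a).its = s.its := by
  cases c <;> rfl

/-- a new label -/
theorem Real.addNew (h : Real S K v₀ s gs φ) {c : Bool} {p : I} (hp : ∀ a < s.n c, φ c a ≠ p)
    (ht : p ∈ K ↔ c = true) : Real S K v₀ (bump s c (s.n c)) gs (upd φ c (s.n c) p) := by
  have hN : s.nN ≤ (bump s c (s.n c)).nN := by
    have := bump_new s c false
    simp only [St.n] at this ⊢
    rw [this]
    split_ifs <;> cases c <;> simp_all [St.n]
  have hK : s.nK ≤ (bump s c (s.n c)).nK := by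
    have := bump_new s c true
    simp only [St.n] at this ⊢
    rw [this]
    split_ifs <;> cases c <;> simp_all [St.n]
  have hlt : ∀ c' a, a < s.n c' → upd φ c (s.n c) p c' a = φ c' a := by
    intro c' a ha
    apply upd_ne
    rintro rfl
    omega
  refine ⟨?_, h.n0.trans hN, h.k0.trans hK, ?_, ?_, h.nd, ?_, ?_⟩
  · rw [hlt false 0 (show 0 < s.nN by have := h.n0; omega),
      hlt false 1 (show 1 < s.nN by have := h.n0; omega),
      hlt true 0 (show 0 < s.nK by have := h.k0; omega)]
    exact h.rt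
  · rw [bump_its]
    have h1 : ∀ (l : List Itm) (l' : List V), List.Forall₂ (Rel S φ) l l' →
        (∀ t ∈ l, t.1 < s.nN ∧ t.2.1 < s.nN ∧ t.2.2 < s.nK) →
        List.Forall₂ (Rel S (upd φ c (s.n c) p)) l l' := by
      intro l l' hl
      induction hl with
      | nil => intro _; exact List.Forall₂.nil
      | @cons t v l l' htv _ ih =>
        intro hl
        refine List.Forall₂.cons ?_ (ih fun t ht => hl t (List.mem_cons_of_mem _ ht))
        obtain ⟨h2, h3, h4⟩ := hl t List.mem_cons_self
        unfold Rel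
        rw [hlt false _ h2, hlt false _ h3, hlt true _ h4]
        exact htv
    exact h1 _ _ h.rel h.lt
  · rw [bump_its]
    intro t ht
    obtain ⟨h2, h3, h4⟩ := h.lt t ht
    exact ⟨h2.trans_le hN, h3.trans_le hN, h4.trans_le hK⟩
  · intro c' a ha b hb hab
    rw [bump_new] at ha hb
    by_cases hc : c' = c
    · subst hc
      rw [if_pos rfl] at ha hb
      rcases Nat.lt_succ_iff_lt_or_eq.1 ha with ha | ha
      · rcases Nat.lt_succ_iff_lt_or_eq.1 hb with hb | hb
        · rw [hlt _ _ ha, hlt _ _ hb] at hab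
          exact h.inj c' a ha b hb hab
        · subst hb
          rw [hlt _ _ ha, upd_self] at hab
          exact absurd hab (hp a ha)
      · subst ha
        rcases Nat.lt_succ_iff_lt_or_eq.1 hb with hb | hb
        · rw [hlt _ _ hb, upd_self] at hab
          exact absurd hab.symm (hp b hb)
        · exact hb.symm
    · rw [if_neg hc] at ha hb
      rw [hlt _ _ ha, hlt _ _ hb] at hab
      exact h.inj c' a ha b hb hab
  · intro c' a ha
    rw [bump_new] at ha
    by_cases hc : c' = c
    · subst hc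
      rw [if_pos rfl] at ha
      rcases Nat.lt_succ_iff_lt_or_eq.1 ha with ha | ha
      · rw [hlt _ _ ha]
        exact h.typ c' a ha
      · subst ha
        rw [upd_self]
        exact ht
    · rw [if_neg hc] at ha
      rw [hlt _ _ ha]
      exact h.typ c' a ha

/-- a new item -/
theorem Real.push' (h : Real S K v₀ s gs φ) {t : Itm} {v : V} (hr : Rel S φ t v)
    (hlt : t.1 < s.nN ∧ t.2.1 < s.nN ∧ t.2.2 < s.nK) (hv : v ∉ gs) :
    Real S K v₀ (push s t) (gs ++ [v]) φ := by
  refine ⟨h.rt, h.n0, h.k0, ?_, ?_, ?_, h.inj, h.typ⟩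
  · exact List.rel_append h.rel (List.Forall₂.cons hr List.Forall₂.nil)
  · intro u hu
    rcases List.mem_append.1 hu with hu | hu
    · exact h.lt u hu
    · rw [List.mem_singleton.1 hu]
      exact hlt
  · rw [List.nodup_append]
    refine ⟨h.nd, List.nodup_singleton v, ?_⟩
    intro a ha b hb hab
    rw [List.mem_singleton.1 hb] at hab
    exact hv (hab ▸ ha)

theorem Real.mem_opts_old (h : Real S K v₀ s gs φ) {c : Bool} {a : ℕ} (ha : a < s.n c) {v : V}
    (hv : v ∉ gs) (hva : φ c a ∈ S.inc v) : a ∈ opts s c := by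
  unfold opts
  rw [List.mem_filter, List.mem_range]
  refine ⟨by omega, ?_⟩
  rw [Bool.or_eq_true]
  exact Or.inr (decide_eq_true (h.deg_lt ha hv hva))

theorem mem_opts_new (s : St) (c : Bool) : s.n c ∈ opts s c := by
  unfold opts
  rw [List.mem_filter, List.mem_range]
  refine ⟨by omega, ?_⟩
  rw [Bool.or_eq_true]
  exact Or.inl (beq_self_eq_true _)

end Pool.Agent.Lib.MP_9a58dc_co.UB
end

section

/-!
The local lemma.
-/

set_option autoImplicit false
set_option linter.unusedSectionVars false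

namespace Pool.Agent.Lib.MP_9a58dc_co.UB

open Finset

variable {V I : Type} [Fintype V] [DecidableEq V] [DecidableEq I] {S : Sys V I} {K : Finset I}
variable {v₀ : V} {s : St} {gs : List V} {φ : Bool → ℕ → I}

/-- items sharing a label share an edge -/
theorem Real.nb_of_share (h : Real S K v₀ s gs φ) {t u : Itm} {v w : V}
    (hr : Rel S φ t v) (hu : u ∈ s.its) (hru : Rel S φ u w)
    (hlt : t.1 < s.nN ∧ t.2.1 < s.nN ∧ t.2.2 < s.nK)
    (hsh : share t u = true) : w ∈ S.nb v := by
  rw [S.mem_nb]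
  simp only [share, Bool.or_eq_true] at hsh
  rcases hsh with (h1 | h1) | h1
  · exact ⟨φ false t.1, (h.has_iff (c := false) hu hru hlt.1).1 h1,
      (hr.mem_iff _).2 (Or.inl rfl)⟩
  · exact ⟨φ false t.2.1, (h.has_iff (c := false) hu hru hlt.2.1).1 h1,
      (hr.mem_iff _).2 (Or.inr (Or.inl rfl))⟩
  · exact ⟨φ true t.2.2, (h.has_iff (c := true) hu hru hlt.2.2).1 h1,
      (hr.mem_iff _).2 (Or.inr (Or.inr rfl))⟩

theorem Real.ball_one (h : Real S K v₀ s gs φ) {u : Itm} {w : V} (hu : u ∈ s.its)
    (hru : Rel S φ u w) (hsh : share (0, 1, 0) u = true) : w ∈ S.nb v₀ :=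
  h.nb_of_share (t := (0, 1, 0)) h.rt hu hru
    ⟨by have := h.n0; show 0 < s.nN; omega, by have := h.n0; show 1 < s.nN; omega,
      by have := h.k0; show 0 < s.nK; omega⟩ hsh

theorem nb_sub_ball_one {v w : V} (h : w ∈ S.nb v) : w ∈ S.ball v 1 := by
  rw [S.ball_succ, mem_biUnion]
  exact ⟨v, mem_singleton_self v, h⟩

/-- a leaf of the certificate -/
theorem Real.leaf (h : Real S K v₀ s gs φ) {m : ℕ} (hm : gainOK s m = true) : Concl S v₀ := by
  classical
  unfold gainOK at hm
  rw [Bool.and_eq_true, Bool.and_eq_true, decide_eq_true_eq, decide_eq_true_eq] at hm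
  obtain ⟨⟨h1, h2⟩, h3⟩ := hm
  set Tl := sel s.its m with hTl
  set A := labN Tl with hA
  set B := labK Tl with hB
  have hsel : List.Forall₂ (Rel S φ) Tl (sel gs m) := f2_sel h.rel m
  have hTsub : ∀ t ∈ Tl, t ∈ s.its := fun t ht => (sel_sub s.its m).subset ht
  set T := (sel gs m).toFinset with hT
  have hTcard : T.card ≤ Tl.length := by
    rw [hsel.length_eq]
    exact List.toFinset_card_le _
  set X := T.biUnion S.inc with hX
  refine ⟨T, hTcard.trans h1, ?_, ?_⟩
  · intro v hv
    obtain ⟨t, ht, hr⟩ := f2_right hsel v (List.mem_toFinset.1 hv)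
    rw [List.all_eq_true] at h2
    have h4 := h2 t ht
    rw [List.any_eq_true] at h4
    obtain ⟨u, hu, h5⟩ := h4
    rw [Bool.and_eq_true] at h5
    obtain ⟨w, _, hrw⟩ := f2_left h.rel u hu
    exact S.mem_ball_trans (nb_sub_ball_one (h.ball_one hu hrw h5.1))
      (h.nb_of_share hrw (hTsub t ht) hr (h.lt u hu) h5.2)
  · -- counting the edges
    have hAlt : ∀ a ∈ A, a < s.nN := by
      intro a ha
      obtain ⟨t, ht, h4⟩ := mem_labN.1 ha
      obtain ⟨h5, h6, _⟩ := h.lt t (hTsub t ht)
      rcases h4 with rfl | rfl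
      · exact h5
      · exact h6
    have hBlt : ∀ a ∈ B, a < s.nK := by
      intro a ha
      obtain ⟨t, ht, rfl⟩ := mem_labK.1 ha
      exact (h.lt t (hTsub t ht)).2.2
    have hAX : ∀ a ∈ A, φ false a ∈ X := by
      intro a ha
      obtain ⟨t, ht, h4⟩ := mem_labN.1 ha
      obtain ⟨v, hv, hr⟩ := f2_left hsel t ht
      refine mem_biUnion.2 ⟨v, List.mem_toFinset.2 hv, (hr.mem_iff _).2 ?_⟩
      rcases h4 with rfl | rfl
      · exact Or.inl rfl
      · exact Or.inr (Or.inl rfl)
    have hBX : ∀ a ∈ B, φ true a ∈ X := by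
      intro a ha
      obtain ⟨t, ht, rfl⟩ := mem_labK.1 ha
      obtain ⟨v, hv, hr⟩ := f2_left hsel t ht
      exact mem_biUnion.2 ⟨v, List.mem_toFinset.2 hv, (hr.mem_iff _).2 (Or.inr (Or.inr rfl))⟩
    have hXcard : A.length + B.length ≤ X.card := by
      have e1 : (A.toFinset.image (φ false)).card = A.length := by
        rw [card_image_of_injOn, List.toFinset_card_of_nodup (nodup_labN Tl)]
        intro a ha b hb hab
        rw [List.coe_toFinset] at ha hb
        exact h.inj false a (hAlt a ha) b (hAlt b hb) hab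
      have e2 : (B.toFinset.image (φ true)).card = B.length := by
        rw [card_image_of_injOn, List.toFinset_card_of_nodup (nodup_labK Tl)]
        intro a ha b hb hab
        rw [List.coe_toFinset] at ha hb
        exact h.inj true a (hBlt a ha) b (hBlt b hb) hab
      have e3 : Disjoint (A.toFinset.image (φ false)) (B.toFinset.image (φ true)) := by
        rw [disjoint_left]
        intro i hi hj
        obtain ⟨a, ha, rfl⟩ := mem_image.1 hi
        obtain ⟨b, hb, hab⟩ := mem_image.1 hj
        have h5 := (h.typ true b (hBlt b (List.mem_toFinset.1 hb))).2 rfl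
        rw [hab] at h5
        have h6 := (h.typ false a (hAlt a (List.mem_toFinset.1 ha))).1 h5
        cases h6
      rw [← e1, ← e2, ← card_union_of_disjoint e3]
      apply card_le_card
      intro i hi
      rcases mem_union.1 hi with hi | hi
      · obtain ⟨a, ha, rfl⟩ := mem_image.1 hi
        exact hAX a (List.mem_toFinset.1 ha)
      · obtain ⟨a, ha, rfl⟩ := mem_image.1 hi
        exact hBX a (List.mem_toFinset.1 ha)
    -- counting the items
    obtain ⟨mm, m1, m2, m3, _⟩ := f2_filter
      (fun t : Itm => A.elem t.1 && A.elem t.2.1 && B.elem t.2.2) h.rel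
    have hYcard : (s.its.filter fun t => A.elem t.1 && A.elem t.2.1 && B.elem t.2.2).length ≤
        (univ.filter fun v => S.inc v ⊆ X).card := by
      rw [← m2, ← List.toFinset_card_of_nodup (h.nd.sublist m1)]
      apply card_le_card
      intro v hv
      obtain ⟨t, _, hp, hr⟩ := m3 v (List.mem_toFinset.1 hv)
      rw [Bool.and_eq_true, Bool.and_eq_true, List.elem_iff, List.elem_iff, List.elem_iff] at hp
      rw [mem_filter]
      refine ⟨mem_univ v, fun i hi => ?_⟩
      rcases (hr.mem_iff i).1 hi with rfl | rfl | rfl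
      · exact hAX _ hp.1.1
      · exact hAX _ hp.1.2
      · exact hBX _ hp.2
    have e4 : 4 * Tl.length + 1 ≤ A.length + B.length +
      (s.its.filter fun t => A.elem t.1 && A.elem t.2.1 && B.elem t.2.2).length := h3
    show 4 * T.card + 1 ≤ X.card + (univ.filter fun v => S.inc v ⊆ X).card
    omega

/-- structure of a good item with a marked edge outside `K` -/
theorem good_N {v : V} (hg : S.good K v) {b : I} (hb : b ∈ S.inc v) (hbK : b ∉ K) :
    ∃ p q, S.inc v = {b, p, q} ∧ p ∉ K ∧ q ∈ K ∧ p ≠ b := by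
  unfold Sys.good at hg
  obtain ⟨q, hq⟩ := card_eq_one.1 hg
  have hqm : q ∈ S.inc v ∩ K := by rw [hq]; exact mem_singleton_self q
  rw [mem_inter] at hqm
  have hbq : b ≠ q := fun h => hbK (h ▸ hqm.2)
  have hcard : (((S.inc v).erase q).erase b).card = 1 := by
    rw [card_erase_of_mem (mem_erase.2 ⟨hbq, hb⟩), card_erase_of_mem hqm.1, S.inc3]
  obtain ⟨p, hp⟩ := card_eq_one.1 hcard
  have hpm : p ∈ ((S.inc v).erase q).erase b := by rw [hp]; exact mem_singleton_self p
  rw [mem_erase, mem_erase] at hpm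
  refine ⟨p, q, ?_, ?_, hqm.2, hpm.1⟩
  · ext i
    simp only [mem_insert, mem_singleton]
    constructor
    · intro hi
      by_cases h1 : i = b
      · exact Or.inl h1
      · by_cases h2 : i = q
        · exact Or.inr (Or.inr h2)
        · have : i ∈ ((S.inc v).erase q).erase b := mem_erase.2 ⟨h1, mem_erase.2 ⟨h2, hi⟩⟩
          rw [hp, mem_singleton] at this
          exact Or.inr (Or.inl this)
    · rintro (rfl | rfl | rfl)
      · exact hb
      · exact hpm.2.2
      · exact hqm.1
  · intro hpK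
    have : p ∈ S.inc v ∩ K := mem_inter.2 ⟨hpm.2.2, hpK⟩
    rw [hq, mem_singleton] at this
    exact hpm.2.1 this

/-- structure of a good item with a marked edge in `K` -/
theorem good_K {v : V} (hg : S.good K v) {b : I} (hb : b ∈ S.inc v) (hbK : b ∈ K) :
    ∃ p q, S.inc v = {p, q, b} ∧ p ∉ K ∧ q ∉ K ∧ p ≠ q := by
  unfold Sys.good at hg
  obtain ⟨r, hr⟩ := card_eq_one.1 hg
  have hbr : b = r := by
    have : b ∈ S.inc v ∩ K := mem_inter.2 ⟨hb, hbK⟩
    rw [hr, mem_singleton] at this
    exact this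
  subst hbr
  have hcard : ((S.inc v).erase b).card = 2 := by
    rw [card_erase_of_mem hb, S.inc3]
  obtain ⟨p, q, hpq, he⟩ := card_eq_two.1 hcard
  have hpm : p ∈ (S.inc v).erase b := by rw [he]; simp
  have hqm : q ∈ (S.inc v).erase b := by rw [he]; simp
  rw [mem_erase] at hpm hqm
  refine ⟨p, q, ?_, ?_, ?_, hpq⟩
  · rw [← insert_erase hb, he]
    ext i
    simp only [mem_insert, mem_singleton]
    tauto
  · intro hpK
    have : p ∈ S.inc v ∩ K := mem_inter.2 ⟨hpm.2, hpK⟩
    rw [hr, mem_singleton] at this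
    exact hpm.1 this
  · intro hpK
    have : q ∈ S.inc v ∩ K := mem_inter.2 ⟨hqm.2, hpK⟩
    rw [hr, mem_singleton] at this
    exact hqm.1 this

/-- the soundness of a state of the certificate -/
def Good (S : Sys V I) (K : Finset I) (v₀ : V) (s : St) : Prop :=
  ∀ (gs : List V) (φ : Bool → ℕ → I), Real S K v₀ s gs φ → Concl S v₀

theorem opts_ne {a b : ℕ} {c : Bool} (h : a ∈ opts s c) (hab : a ≠ b) :
    a ∈ (opts s c).filter fun y => y != b := by
  rw [List.mem_filter]
  exact ⟨h, by simpa using hab⟩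

/-- revealing a new item in an edge outside `K` -/
theorem Real.revealN (h : Real S K v₀ s gs φ) {b : ℕ} (hb : b < s.nN) {v : V} (hv : v ∉ gs)
    (hbv : φ false b ∈ S.inc v) (hg : S.good K v)
    (hG : ∀ s' ∈ extN s b, Good S K v₀ s') : Concl S v₀ := by
  have hbK : φ false b ∉ K := fun h1 => by cases (h.typ false b hb).1 h1
  obtain ⟨p, q, he, hp, hq, hpb⟩ := good_N hg hbv hbK
  have hpv : p ∈ S.inc v := by rw [he]; simp
  have hqv : q ∈ S.inc v := by rw [he]; simp
  -- the label of `p`
  have key : ∀ (y : ℕ) (φ₁ : Bool → ℕ → I), Real S K v₀ (bump s false y) gs φ₁ →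
      φ₁ false y = p → φ₁ false b = φ false b → y < (bump s false y).n false →
      b < (bump s false y).n false → y ∈ opts s false → y ≠ b → Concl S v₀ := by
    intro y φ₁ h₁ e1 e2 l1 l2 ho hyb
    -- the label of `q`
    have key2 : ∀ (k : ℕ) (φ₂ : Bool → ℕ → I),
        Real S K v₀ (bump (bump s false y) true k) gs φ₂ →
        φ₂ true k = q → (∀ a < (bump s false y).n false, φ₂ false a = φ₁ false a) →
        k < (bump (bump s false y) true k).n true → k ∈ opts (bump s false y) true →
        Concl S v₀ := by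
      intro k φ₂ h₂ e3 e4 l3 ho2
      refine hG (push (bump (bump s false y) true k) (b, y, k)) ?_ (gs ++ [v]) φ₂
        (h₂.push' ?_ ⟨?_, ?_, ?_⟩ hv)
      · unfold extN
        rw [List.mem_flatMap]
        exact ⟨y, opts_ne ho hyb, List.mem_map.2 ⟨k, ho2, rfl⟩⟩
      · show S.inc v = {φ₂ false b, φ₂ false y, φ₂ true k}
        rw [e3, e4 b l2, e4 y l1, e1, e2]
        exact he
      · exact l2
      · exact l1
      · exact l3
    by_cases c2 : ∃ k, k < (bump s false y).n true ∧ φ₁ true k = q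
    · obtain ⟨k, hk, hkq⟩ := c2
      have hb2 : bump (bump s false y) true k = bump s false y := bump_old hk
      refine key2 k φ₁ ?_ hkq (fun _ _ => rfl) ?_ ?_
      · rw [hb2]; exact h₁
      · rw [hb2]; exact hk
      · exact h₁.mem_opts_old hk hv (by rw [hkq]; exact hqv)
    · push Not at c2
      refine key2 ((bump s false y).n true) _
        (h₁.addNew (c := true) (p := q) c2 ⟨fun _ => rfl, fun _ => hq⟩) (upd_self _ _ _ _) ?_ ?_ ?_
      · intro a _
        apply upd_ne
        intro h5
        cases h5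
      · rw [bump_new, if_pos rfl]; omega
      · exact mem_opts_new _ _
  by_cases c1 : ∃ y, y < s.n false ∧ φ false y = p
  · obtain ⟨y, hy, hyp⟩ := c1
    have hb1 : bump s false y = s := bump_old hy
    refine key y φ ?_ hyp rfl ?_ ?_ ?_ ?_
    · rw [hb1]; exact h
    · rw [hb1]; exact hy
    · rw [hb1]; exact hb
    · exact h.mem_opts_old hy hv (by rw [hyp]; exact hpv)
    · rintro rfl
      exact hpb hyp.symm
  · push Not at c1
    have hbn : b < s.n false := hb
    refine key (s.n false) _ (h.addNew (c := false) (p := p) c1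
      ⟨fun h5 => absurd h5 hp, fun h5 => by cases h5⟩) (upd_self _ _ _ _) ?_ ?_ ?_ ?_ ?_
    · apply upd_ne
      intro _
      omega
    · rw [bump_new, if_pos rfl]; omega
    · rw [bump_new, if_pos rfl]; omega
    · exact mem_opts_new _ _
    · omega

theorem opts_lt {a b : ℕ} {c : Bool} (h : a ∈ opts s c) (hab : b < a) :
    a ∈ (opts s c).filter fun y => decide (b < y) := by
  rw [List.mem_filter]
  exact ⟨h, decide_eq_true hab⟩

/-- revealing a new item in an edge of `K` -/
theorem Real.revealK (h : Real S K v₀ s gs φ) {k : ℕ} (hk : k < s.nK) {v : V} (hv : v ∉ gs)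
    (hkv : φ true k ∈ S.inc v) (hg : S.good K v)
    (hG : ∀ s' ∈ extK s k, Good S K v₀ s') : Concl S v₀ := by
  have hkK : φ true k ∈ K := (h.typ true k hk).2 rfl
  obtain ⟨p, q, he, hp, hq, hpq⟩ := good_K hg hkv hkK
  have hpv : p ∈ S.inc v := by rw [he]; simp
  have hqv : q ∈ S.inc v := by rw [he]; simp
  -- labels `x < y` with `{p, q} = {φ x, φ y}`
  have key : ∀ (x y : ℕ) (φ₂ : Bool → ℕ → I),
      Real S K v₀ (bump (bump s false x) false y) gs φ₂ →
      S.inc v = {φ₂ false x, φ₂ false y, φ true k} → φ₂ true k = φ true k → x < y →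
      x ∈ opts s false → y ∈ opts (bump s false x) false →
      y < (bump (bump s false x) false y).nN →
      k < (bump (bump s false x) false y).nK → Concl S v₀ := by
    intro x y φ₂ h₂ e1 e2 hxy ho1 ho2 l1 l2
    refine hG (push (bump (bump s false x) false y) (x, y, k)) ?_ (gs ++ [v]) φ₂
      (h₂.push' ?_ ⟨?_, ?_, ?_⟩ hv)
    · unfold extK
      rw [List.mem_flatMap]
      exact ⟨x, ho1, List.mem_map.2 ⟨y, opts_lt ho2 hxy, rfl⟩⟩
    · show S.inc v = {φ₂ false x, φ₂ false y, φ₂ true k}
      rw [e2]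
      exact e1
    · exact hxy.trans l1
    · exact l1
    · exact l2
  have hswap : ∀ a b c : I, ({a, b, c} : Finset I) = {b, a, c} := by
    intro a b c
    ext i
    simp only [mem_insert, mem_singleton]
    tauto
  -- one old and one new label
  have one : ∀ (x : ℕ) (p q : I), x < s.n false → φ false x = p → q ∉ K → q ∈ S.inc v →
      p ∈ S.inc v → (∀ a < s.n false, φ false a ≠ q) → S.inc v = {p, q, φ true k} →
      Concl S v₀ := by
    intro x p q hx hxp hq hqv hpv hqn he
    have hb1 : bump s false x = s := bump_old hx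
    have h₂ := h.addNew (c := false) (p := q) hqn ⟨fun h5 => absurd h5 hq, fun h5 => by cases h5⟩
    have hn := bump_new s false false
    rw [if_pos rfl] at hn
    refine key x (s.n false) _ (by rw [hb1]; exact h₂) ?_ ?_ hx
      (h.mem_opts_old hx hv (by rw [hxp]; exact hpv)) (by rw [hb1]; exact mem_opts_new _ _) ?_ ?_
    · rw [upd_self, upd_ne (fun _ => by omega), hxp]
      exact he
    · apply upd_ne
      intro h5
      cases h5
    · rw [hb1]
      show s.n false < (bump s false (s.n false)).n false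
      omega
    · rw [hb1]
      exact hk
  by_cases c1 : ∃ x, x < s.n false ∧ φ false x = p
  · obtain ⟨x, hx, hxp⟩ := c1
    by_cases c2 : ∃ y, y < s.n false ∧ φ false y = q
    · obtain ⟨y, hy, hyq⟩ := c2
      have hb1 : bump s false x = s := bump_old hx
      have hb2 : bump s false y = s := bump_old hy
      have hxy : x ≠ y := by
        rintro rfl
        exact hpq (hxp.symm.trans hyq)
      have ox : x ∈ opts s false := h.mem_opts_old hx hv (by rw [hxp]; exact hpv)
      have oy : y ∈ opts s false := h.mem_opts_old hy hv (by rw [hyq]; exact hqv)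
      rcases lt_or_gt_of_ne hxy with hlt | hlt
      · refine key x y φ (by rw [hb1, hb2]; exact h) ?_ rfl hlt ox (by rw [hb1]; exact oy)
          (by rw [hb1, hb2]; exact hy) (by rw [hb1, hb2]; exact hk)
        rw [hxp, hyq]
        exact he
      · refine key y x φ (by rw [hb2, hb1]; exact h) ?_ rfl hlt oy (by rw [hb2]; exact ox)
          (by rw [hb2, hb1]; exact hx) (by rw [hb2, hb1]; exact hk)
        rw [hxp, hyq, hswap]
        exact he
    · push Not at c2
      exact one x p q hx hxp hq hqv hpv c2 he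
  · push Not at c1
    by_cases c2 : ∃ y, y < s.n false ∧ φ false y = q
    · obtain ⟨y, hy, hyq⟩ := c2
      exact one y q p hy hyq hp hpv hqv c1 (by rw [hswap]; exact he)
    · push Not at c2
      -- two new labels
      have h₁ := h.addNew (c := false) (p := p) c1 ⟨fun h5 => absurd h5 hp, fun h5 => by cases h5⟩
      have hn := bump_new s false false
      rw [if_pos rfl] at hn
      have hqn : ∀ a < (bump s false (s.n false)).n false,
          upd φ false (s.n false) p false a ≠ q := by
        intro a ha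
        rw [hn] at ha
        rcases Nat.lt_succ_iff_lt_or_eq.1 ha with ha | ha
        · rw [upd_ne (fun _ => by omega)]
          exact c2 a ha
        · subst ha
          rw [upd_self]
          exact hpq
      have h₂ := h₁.addNew (c := false) (p := q) hqn
        ⟨fun h5 => absurd h5 hq, fun h5 => by cases h5⟩
      have hn2 := bump_new (bump s false (s.n false)) false false
      rw [if_pos rfl] at hn2
      refine key (s.n false) ((bump s false (s.n false)).n false) _ h₂ ?_ ?_ (by omega)
        (mem_opts_new _ _) (mem_opts_new _ _) ?_ ?_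
      · rw [upd_self, upd_ne (fun _ => by omega), upd_self]
        exact he
      · rw [upd_ne (fun h5 => by cases h5), upd_ne (fun h5 => by cases h5)]
      · show (bump s false (s.n false)).n false <
          (bump (bump s false (s.n false)) false ((bump s false (s.n false)).n false)).n false
        omega
      · exact hk

/-- a node of the certificate -/
theorem Real.node (h : Real S K v₀ s gs φ) (hgood : ∀ v ∈ S.ball v₀ 2, S.good K v) :
    ∀ (l : List Itm) (E : List St), (∀ t ∈ l, t ∈ s.its) → exts s l = some E →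
      (∀ s' ∈ E, Good S K v₀ s') → Concl S v₀ := by
  intro l
  induction l with
  | nil => intro E _ hE; cases hE
  | cons t l ih =>
    intro E hl hE hG
    have ht : t ∈ s.its := hl t List.mem_cons_self
    obtain ⟨l1, l2, l3⟩ := h.lt t ht
    obtain ⟨w, _, hr⟩ := f2_left h.rel t ht
    have hfin : ∀ i, i ∈ S.inc w → share (0, 1, 0) t = true → ∀ v, i ∈ S.inc v → S.good K v := by
      intro i hi hsh v hv
      exact hgood v (S.mem_ball_trans (nb_sub_ball_one (h.ball_one ht hr hsh))
        (S.mem_nb.2 ⟨i, hv, hi⟩))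
    unfold exts at hE
    split_ifs at hE with h1 h2 h3 h4 h5 h6
    · obtain rfl := Option.some.inj hE
      obtain ⟨v, hv, hbv⟩ := h.exists_new (c := false) l1 (of_decide_eq_true h1)
      exact h.revealN l1 hv hbv (hfin _ ((hr.mem_iff _).2 (Or.inl rfl)) h2 v hbv) hG
    · obtain rfl := Option.some.inj hE
      obtain ⟨v, hv, hbv⟩ := h.exists_new (c := false) l2 (of_decide_eq_true h3)
      exact h.revealN l2 hv hbv (hfin _ ((hr.mem_iff _).2 (Or.inr (Or.inl rfl))) h4 v hbv) hG
    · obtain rfl := Option.some.inj hE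
      obtain ⟨v, hv, hbv⟩ := h.exists_new (c := true) l3 (of_decide_eq_true h5)
      exact h.revealK l3 hv hbv (hfin _ ((hr.mem_iff _).2 (Or.inr (Or.inr rfl))) h6 v hbv) hG
    · exact ih E (fun u hu => hl u (List.mem_cons_of_mem _ hu)) hE hG

theorem run_sound (hgood : ∀ v ∈ S.ball v₀ 2, S.good K v) : ∀ (cs : List ℕ) (ss : List St),
    run cs ss = true → ∀ s ∈ ss, Good S K v₀ s := by
  intro cs
  induction cs with
  | nil =>
    intro ss hss s hs
    rw [run, List.isEmpty_iff] at hss
    rw [hss] at hs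
    cases hs
  | cons c cs ih =>
    intro ss hss
    cases ss with
    | nil => cases hss
    | cons s ss =>
      rw [run] at hss
      split_ifs at hss with h1 h2
      · cases hE : exts s s.its with
        | none => rw [hE] at hss; cases hss
        | some l =>
          rw [hE] at hss
          have h3 := ih _ hss
          intro s' hs'
          rcases List.mem_cons.1 hs' with rfl | hs'
          · intro gs φ hR
            exact hR.node hgood _ l (fun t ht => ht) hE
              fun s'' hs'' => h3 s'' (List.mem_append_left _ hs'')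
          · exact h3 s' (List.mem_append_right _ hs')
      · intro s' hs'
        rcases List.mem_cons.1 hs' with rfl | hs'
        · intro gs φ hR
          exact hR.leaf h2
        · exact ih _ hss s' hs'

/-- **the local lemma** -/
theorem local_lemma (hgood : ∀ v ∈ S.ball v₀ 2, S.good K v) : Concl S v₀ := by
  have hg := hgood v₀ (S.ball_mono v₀ (Nat.zero_le 2) (mem_singleton_self v₀))
  obtain ⟨r, hr⟩ := card_eq_one.1 hg
  have hrm : r ∈ S.inc v₀ ∩ K := by rw [hr]; exact mem_singleton_self r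
  rw [mem_inter] at hrm
  obtain ⟨p, q, he, hp, hq, hpq⟩ := good_K hg hrm.1 hrm.2
  refine run_sound hgood cert [⟨[(0, 1, 0)], 2, 1⟩] cert_ok _ (List.mem_singleton_self _) [v₀]
    (fun c a => if c = true then r else if a = 0 then p else q) ?_
  refine ⟨?_, le_rfl, le_rfl, ?_, ?_, List.nodup_singleton _, ?_, ?_⟩
  · simpa using he
  · refine List.Forall₂.cons ?_ List.Forall₂.nil
    show S.inc v₀ = _
    simpa using he
  · intro t ht
    rw [List.mem_singleton.1 ht]
    exact ⟨by norm_num, by norm_num, by norm_num⟩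
  · intro c a ha b hb hab
    cases c with
    | false =>
      simp only [St.n] at ha hb
      have ha' : a = 0 ∨ a = 1 := by omega
      have hb' : b = 0 ∨ b = 1 := by omega
      rcases ha' with rfl | rfl <;> rcases hb' with rfl | rfl <;> simp at hab ⊢
      · exact hpq hab
      · exact hpq hab.symm
    | true =>
      simp only [St.n] at ha hb
      omega
  · intro c a ha
    cases c with
    | false =>
      simp only [St.n] at ha
      have ha' : a = 0 ∨ a = 1 := by omega
      rcases ha' with rfl | rfl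
      · simpa using hp
      · simpa using hq
    | true => simpa using hrm.2

end Pool.Agent.Lib.MP_9a58dc_co.UB
end

section

/-!
A small transversal of a cubic incidence system with an almost exact cover.
-/

set_option autoImplicit false
set_option linter.unusedSectionVars false

namespace Pool.Agent.Lib.MP_9a58dc_co.UB

open Finset

variable {V I : Type} [Fintype V] [Fintype I] [DecidableEq V] [DecidableEq I]
variable (S : Sys V I) (K : Finset I)

/-- few items are near a bad item -/
theorem card_not_nice [DecidablePred fun v => S.good K v] :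
    (univ.filter fun v₀ => ¬ ∀ v ∈ S.ball v₀ 2, S.good K v).card ≤
      127 * (univ.filter fun v => ¬ S.good K v).card := by
  classical
  have h1 : (univ.filter fun v₀ => ¬ ∀ v ∈ S.ball v₀ 2, S.good K v) ⊆
      (univ.filter fun v => ¬ S.good K v).biUnion fun v => S.ball v 3 := by
    intro u hu
    rw [mem_filter] at hu
    obtain ⟨_, hu⟩ := hu
    push Not at hu
    obtain ⟨v, hv, hg⟩ := hu
    exact mem_biUnion.2 ⟨v, mem_filter.2 ⟨mem_univ v, hg⟩,
      S.ball_mono v (by norm_num : 2 ≤ 3) ((S.mem_ball_symm 2).1 hv)⟩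
  refine (card_le_card h1).trans ?_
  rw [mul_comm]
  exact card_biUnion_le_card_mul _ _ 127 fun v _ => S.card_ball_three v

/-- **a transversal with a gain** -/
theorem exists_transversal [DecidablePred fun v => S.good K v] :
    ∃ T : Finset V, (∀ i, ∃ v ∈ T, v ∈ S.it i) ∧
      1524 * T.card + Fintype.card V ≤
        381 * (Fintype.card I + Fintype.card V) +
          127 * (univ.filter fun v => ¬ S.good K v).card := by
  classical
  have hloc : ∀ v₀ : V, (∀ v ∈ S.ball v₀ 2, S.good K v) →
      ∃ T : Finset V, T.card ≤ 3 ∧ T ⊆ S.ball v₀ 2 ∧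
      4 * T.card + 1 ≤ (T.biUnion S.inc).card +
        (univ.filter fun v => S.inc v ⊆ T.biUnion S.inc).card :=
    fun v₀ h => local_lemma h
  choose! T hT1 hT2 hT3 using hloc
  set N : Finset V := univ.filter fun v₀ => ∀ v ∈ S.ball v₀ 2, S.good K v with hN
  set X : V → Finset I := fun v => (T v).biUnion S.inc with hX
  set Y : V → Finset V := fun v => univ.filter fun u => S.inc u ⊆ X v with hY
  obtain ⟨R, hR, hmax⟩ := Finset.exists_max_image
    (N.powerset.filter fun R : Finset V => (R : Set V).PairwiseDisjoint X) Finset.card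
    ⟨∅, by rw [mem_filter]; exact ⟨empty_mem_powerset _, by simp⟩⟩
  rw [mem_filter, mem_powerset] at hR
  obtain ⟨hRN, hRd⟩ := hR
  have hRnice : ∀ r ∈ R, ∀ v ∈ S.ball r 2, S.good K v := fun r hr => (mem_filter.1 (hRN hr)).2
  -- the nice items are near the chosen ones
  have hnear : N ⊆ R.biUnion fun r => (T r).biUnion fun t => S.ball t 3 := by
    intro v hv
    have hvn : ∀ u ∈ S.ball v 2, S.good K u := (mem_filter.1 hv).2
    have hmeet : ∃ r ∈ R, ∃ i, i ∈ X v ∧ i ∈ X r := by
      by_cases hvR : v ∈ R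
      · refine ⟨v, hvR, ?_⟩
        have h3 := hT3 v hvn
        by_contra hcon
        push Not at hcon
        have hXe : (T v).biUnion S.inc = ∅ := by
          rw [eq_empty_iff_forall_notMem]
          exact fun i hi => hcon i hi hi
        have hYe : (univ.filter fun u => S.inc u ⊆ (T v).biUnion S.inc) = ∅ := by
          rw [eq_empty_iff_forall_notMem]
          intro u hu
          rw [mem_filter, hXe] at hu
          obtain ⟨i, hi⟩ := S.inc_nonempty u
          exact absurd (hu.2 hi) (notMem_empty i)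
        rw [hYe, hXe] at h3
        simp at h3
      · by_contra hcon
        push Not at hcon
        have hins : insert v R ∈
            N.powerset.filter fun R : Finset V => (R : Set V).PairwiseDisjoint X := by
          rw [mem_filter, mem_powerset]
          refine ⟨insert_subset hv hRN, ?_⟩
          rw [coe_insert, Set.pairwiseDisjoint_insert]
          refine ⟨hRd, fun r hr _ => ?_⟩
          rw [disjoint_left]
          exact fun i hi hj => hcon r hr i hi hj
        have := hmax _ hins
        rw [card_insert_of_notMem hvR] at this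
        omega
    obtain ⟨r, hr, i, hi, hj⟩ := hmeet
    obtain ⟨t, ht, hti⟩ := mem_biUnion.1 hi
    obtain ⟨t', ht', hti'⟩ := mem_biUnion.1 hj
    refine mem_biUnion.2 ⟨r, hr, mem_biUnion.2 ⟨t', ht', ?_⟩⟩
    rw [S.mem_ball_symm]
    exact S.mem_ball_trans (hT2 v hvn ht) (S.mem_nb.2 ⟨i, hti', hti⟩)
  have hNcard : N.card ≤ 381 * R.card := by
    refine (card_le_card hnear).trans ?_
    rw [mul_comm]
    refine card_biUnion_le_card_mul _ _ 381 fun r hr => ?_
    refine (card_biUnion_le_card_mul _ _ 127 fun t _ => S.card_ball_three t).trans ?_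
    have := hT1 r (hRnice r hr)
    omega
  have hVcard : Fintype.card V ≤ 381 * R.card + 127 * (univ.filter fun v => ¬ S.good K v).card := by
    have h1 := card_not_nice S K
    have h2 := card_filter_add_card_filter_not (s := (univ : Finset V))
      (fun v₀ => ∀ v ∈ S.ball v₀ 2, S.good K v)
    rw [card_univ] at h2
    have h3 : N.card = (univ.filter fun v₀ => ∀ v ∈ S.ball v₀ 2, S.good K v).card := by
      rw [hN]
    omega
  -- the rest
  set J : Finset I := univ \ R.biUnion X with hJ
  obtain ⟨T', hT', hT'c⟩ := cm S.it3 J.card J rfl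
  have hXsum : J.card + ∑ r ∈ R, (X r).card = Fintype.card I := by
    rw [← card_biUnion (fun r hr s hs hrs => hRd hr hs hrs), hJ,
      card_sdiff_add_card_eq_card (subset_univ _), card_univ]
  have hYd : ∀ r ∈ R, ∀ s ∈ R, r ≠ s → Disjoint (Y r) (Y s) := by
    intro r hr s hs hrs
    rw [disjoint_left]
    intro v hv hw
    rw [mem_filter] at hv hw
    obtain ⟨i, hi⟩ := S.inc_nonempty v
    exact (disjoint_left.1 (hRd hr hs hrs)) (hv.2 hi) (hw.2 hi)
  have hYsum : (J.biUnion S.it).card + ∑ r ∈ R, (Y r).card ≤ Fintype.card V := by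
    rw [← card_biUnion hYd, ← card_union_of_disjoint, ← card_univ]
    · exact card_le_card (subset_univ _)
    · rw [disjoint_left]
      intro v hv hw
      obtain ⟨i, hi, hvi⟩ := mem_biUnion.1 hv
      obtain ⟨r, hr, hvr⟩ := mem_biUnion.1 hw
      rw [mem_filter] at hvr
      rw [hJ, mem_sdiff] at hi
      exact hi.2 (mem_biUnion.2 ⟨r, hr, hvr.2 ((S.mem v i).2 hvi)⟩)
  have hTsum : ∑ r ∈ R, (4 * (T r).card + 1) ≤ ∑ r ∈ R, (X r).card + ∑ r ∈ R, (Y r).card := by
    rw [← sum_add_distrib]
    exact sum_le_sum fun r hr => hT3 r (hRnice r hr)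
  have hTsum2 : ∑ r ∈ R, (4 * (T r).card + 1) = 4 * ∑ r ∈ R, (T r).card + R.card := by
    rw [sum_add_distrib, ← mul_sum]
    simp
  refine ⟨R.biUnion T ∪ T', ?_, ?_⟩
  · intro i
    by_cases hi : i ∈ J
    · obtain ⟨v, hv, hvi⟩ := hT' i hi
      exact ⟨v, mem_union_right _ hv, hvi⟩
    · rw [hJ, mem_sdiff] at hi
      push Not at hi
      obtain ⟨r, hr, hir⟩ := mem_biUnion.1 (hi (mem_univ i))
      obtain ⟨t, ht, hti⟩ := mem_biUnion.1 hir
      exact ⟨t, mem_union_left _ (mem_biUnion.2 ⟨r, hr, ht⟩), (S.mem t i).1 hti⟩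
  · have h1 : (R.biUnion T ∪ T').card ≤ ∑ r ∈ R, (T r).card + T'.card :=
      (card_union_le _ _).trans (Nat.add_le_add_right card_biUnion_le _)
    omega

end Pool.Agent.Lib.MP_9a58dc_co.UB
end

section

/-!
`508 γ(D⁻) ≤ 761 γ(D)` for every `2`-regular loopless digraph `D`.
-/

set_option autoImplicit false

namespace Pool.Agent.Lib.MP_9a58dc_co.UB

open Finset

/-- the incidence system of a `2`-regular digraph: the items are the vertices, the edges are the
closed out-neighbourhoods -/
noncomputable def sysOf {V : Type} [Fintype V] [DecidableEq V] (D : Digraph V)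
    (hl : ∀ v, ¬ D.Adj v v) (ho : ∀ v, Set.ncard {w | D.Adj v w} = 2)
    (hi : ∀ v, Set.ncard {w | D.Adj w v} = 2) : Sys V V := by
  classical
  exact
  { inc := fun v => insert v (univ.filter fun w => D.Adj w v)
    it := fun v => insert v (univ.filter fun w => D.Adj v w)
    mem := fun v i => by
      simp only [mem_insert, mem_filter, mem_univ, true_and]
      exact or_congr_left eq_comm
    inc3 := fun v => by
      rw [card_insert_of_notMem (by simp [hl v])]
      have h := hi v
      rw [Set.ncard_eq_toFinset_card'] at h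
      have h2 : (univ.filter fun w => D.Adj w v).card = 2 := by
        rw [← h]
        congr 1
        ext w
        simp
      omega
    it3 := fun v => by
      rw [card_insert_of_notMem (by simp [hl v])]
      have h := ho v
      rw [Set.ncard_eq_toFinset_card'] at h
      have h2 : (univ.filter fun w => D.Adj v w).card = 2 := by
        rw [← h]
        congr 1
        ext w
        simp
      omega }

theorem exists_gamma' {V : Type} [Fintype V] (D : Digraph V) :
    ∃ C : Finset V, C.card = gamma D ∧ Dominates D C := by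
  classical
  have : {m | ∃ C : Finset V, C.card = m ∧ Dominates D C}.Nonempty :=
    ⟨(univ : Finset V).card, univ, rfl, fun v hv => absurd (mem_univ v) hv⟩
  exact Nat.sInf_mem this

/-- **the upper bound** -/
theorem upper {V : Type} [Finite V] (D : Digraph V)
    (hl : ∀ v, ¬ D.Adj v v) (ho : ∀ v, Set.ncard {w | D.Adj v w} = 2)
    (hi : ∀ v, Set.ncard {w | D.Adj w v} = 2) : 508 * gamma (rev D) ≤ 761 * gamma D := by
  classical
  have := Fintype.ofFinite V
  set S := sysOf D hl ho hi with hS
  have hinc : ∀ u v, u ∈ S.inc v ↔ u = v ∨ D.Adj u v := by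
    intro u v
    rw [hS]
    unfold sysOf
    simp only [mem_insert, mem_filter, mem_univ, true_and]
  have hit : ∀ u v, u ∈ S.it v ↔ u = v ∨ D.Adj v u := by
    intro u v
    rw [hS]
    unfold sysOf
    simp only [mem_insert, mem_filter, mem_univ, true_and]
  obtain ⟨K, hK, hKd⟩ := exists_gamma' D
  obtain ⟨T, hT, hTc⟩ := exists_transversal S K
  -- the transversal dominates the reverse
  have h1 : gamma (rev D) ≤ T.card := by
    apply Nat.sInf_le
    refine ⟨T, rfl, fun v hv => ?_⟩
    obtain ⟨u, hu, huv⟩ := hT v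
    rcases (hit u v).1 huv with rfl | h
    · exact absurd hu hv
    · exact ⟨u, hu, h⟩
  -- counting the excess of `K`
  have h2 : ∑ v : V, (S.inc v ∩ K).card = 3 * K.card := by
    have h3 := Finset.sum_card_bipartiteAbove_eq_sum_card_bipartiteBelow (s := (univ : Finset V))
      (t := K) (fun v i => i ∈ S.inc v)
    simp only [Finset.bipartiteAbove, Finset.bipartiteBelow] at h3
    have h4 : ∀ v : V, (S.inc v ∩ K).card = (K.filter fun i => i ∈ S.inc v).card := by
      intro v
      rw [inter_comm, ← filter_mem_eq_inter]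
    rw [sum_congr rfl fun v _ => h4 v, h3]
    have h5 : ∀ i ∈ K, (univ.filter fun v => i ∈ S.inc v).card = 3 := by
      intro i _
      rw [← S.it3 i]
      congr 1
      ext v
      rw [mem_filter]
      exact ⟨fun h => (S.mem v i).1 h.2, fun h => ⟨mem_univ v, (S.mem v i).2 h⟩⟩
    rw [sum_congr rfl h5, sum_const, smul_eq_mul, mul_comm]
  have h3 : ∀ v : V, 1 + (if S.good K v then 0 else 1) ≤ (S.inc v ∩ K).card := by
    intro v
    have hpos : 1 ≤ (S.inc v ∩ K).card := by
      rw [Nat.one_le_iff_ne_zero, card_ne_zero]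
      by_cases hv : v ∈ K
      · exact ⟨v, mem_inter.2 ⟨(hinc v v).2 (Or.inl rfl), hv⟩⟩
      · obtain ⟨u, hu, huv⟩ := hKd v hv
        exact ⟨u, mem_inter.2 ⟨(hinc u v).2 (Or.inr huv), hu⟩⟩
    by_cases hg : S.good K v
    · rw [if_pos hg]
      omega
    · rw [if_neg hg]
      unfold Sys.good at hg
      omega
  have h4 : Fintype.card V + (univ.filter fun v => ¬ S.good K v).card ≤ 3 * gamma D := by
    rw [← hK, ← h2]
    refine le_trans ?_ (sum_le_sum fun v _ => h3 v)
    rw [sum_add_distrib, card_filter]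
    simp only [ite_not, sum_const, smul_eq_mul, mul_one, card_univ]
    exact le_rfl
  have h5 : (univ.filter fun v => ¬ S.good K v).card ≤ Fintype.card V := by
    rw [← card_univ]
    exact card_le_card (filter_subset _ _)
  omega

end Pool.Agent.Lib.MP_9a58dc_co.UB
end
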