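import Mathlib

section

/-!
Transversals of 3-uniform hypergraphs: `4 τ ≤ n + m` (Chvátal–McDiarmid, Tuza).
-/

set_option autoImplicit false
set_option linter.unusedSectionVars false

namespace Pool.Agent.Lib.MP_9a58dc_co.UB

open Finset

variable {V I : Type} [DecidableEq V] [DecidableEq I]

/-- the members of `J` containing `v` -/
def stv (it : I → Finset V) (J : Finset I) (v : V) : Finset I := J.filter fun i => v ∈ it i

theorem mem_stv {it : I → Finset V} {J : Finset I} {v : V} {i : I} :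
    i ∈ stv it J v ↔ i ∈ J ∧ v ∈ it i := mem_filter

/-- matchings: no member of `J` contains two items of `M` -/
def IsM (it : I → Finset V) (J : Finset I) (M : Finset V) : Prop :=
  ∀ u ∈ M, ∀ v ∈ M, u ≠ v → ∀ i ∈ J, u ∈ it i → v ∈ it i → False

/-- the linear 2-regular case -/
theorem cm_lin {it : I → Finset V} (h3 : ∀ i, (it i).card = 3) {J : Finset I}
    (h2 : ∀ v ∈ J.biUnion it, (stv it J v).card = 2)
    (hlin : ∀ i ∈ J, ∀ j ∈ J, i ≠ j → ∀ u v, u ≠ v → u ∈ it i → u ∈ it j → v ∈ it i → v ∈ it j →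
      False) :
    ∃ T : Finset V, (∀ i ∈ J, ∃ v ∈ T, v ∈ it i) ∧ 4 * T.card ≤ J.card + (J.biUnion it).card := by
  classical
  rcases isEmpty_or_nonempty I with hemp | hnemp
  · exact ⟨∅, fun i => (hemp.false i).elim, by simp⟩
  -- a maximum matching
  obtain ⟨M, hM, hmax⟩ := Finset.exists_max_image
    ((J.biUnion it).powerset.filter fun M => IsM it J M) Finset.card
    ⟨∅, mem_filter.2 ⟨mem_powerset.2 (empty_subset _), fun u hu => absurd hu (notMem_empty u)⟩⟩
  obtain ⟨hMs, hMm⟩ := mem_filter.1 hM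
  rw [mem_powerset] at hMs
  set U := J.filter fun i => ∀ v ∈ M, v ∉ it i with hU
  have hUJ : ∀ i ∈ U, i ∈ J := fun i hi => (mem_filter.1 hi).1
  have hUM : ∀ i ∈ U, ∀ v ∈ M, v ∉ it i := fun i hi => (mem_filter.1 hi).2
  -- each item of an unmatched edge lies in exactly one unmatched edge
  have huniq : ∀ i ∈ U, ∀ j ∈ U, ∀ v, v ∈ it i → v ∈ it j → i = j := by
    intro i hi j hj v hvi hvj
    by_contra hij
    have hvM : v ∉ M := fun h => hUM i hi v h hvi
    have hstv : stv it J v = {i, j} := by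
      have hv2 := h2 v (mem_biUnion.2 ⟨i, hUJ i hi, hvi⟩)
      refine (eq_of_subset_of_card_le ?_ ?_).symm
      · intro k hk
        rw [mem_insert, mem_singleton] at hk
        rcases hk with rfl | rfl
        · exact mem_stv.2 ⟨hUJ _ hi, hvi⟩
        · exact mem_stv.2 ⟨hUJ _ hj, hvj⟩
      · rw [hv2, card_pair hij]
    have hnew : insert v M ∈ (J.biUnion it).powerset.filter fun M => IsM it J M := by
      refine mem_filter.2 ⟨mem_powerset.2 ?_, ?_⟩
      · intro w hw
        rcases mem_insert.1 hw with rfl | hw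
        · exact mem_biUnion.2 ⟨i, hUJ i hi, hvi⟩
        · exact hMs hw
      · have key : ∀ w ∈ M, ∀ k ∈ J, v ∈ it k → w ∈ it k → False := by
          intro w hw k hk hvk hwk
          have : k ∈ stv it J v := mem_stv.2 ⟨hk, hvk⟩
          rw [hstv, mem_insert, mem_singleton] at this
          rcases this with rfl | rfl
          · exact hUM _ hi w hw hwk
          · exact hUM _ hj w hw hwk
        intro a ha b hb hab k hk hak hbk
        rcases mem_insert.1 ha with h | ha'
        · subst h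
          rcases mem_insert.1 hb with h | hb'
          · exact hab h.symm
          · exact key b hb' k hk hak hbk
        · rcases mem_insert.1 hb with h | hb'
          · subst h
            exact key a ha' k hk hbk hak
          · exact hMm a ha' b hb' hab k hk hak hbk
    have := hmax _ hnew
    rw [card_insert_of_notMem hvM] at this
    omega
  -- the other edge of an item of an unmatched edge
  set P := U.biUnion it with hP
  have hPex : ∀ v ∈ P, ∃ i o : I, ∃ m ∈ M, i ∈ U ∧ o ∈ J ∧ v ∈ it i ∧ v ∈ it o ∧ m ∈ it o ∧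
      stv it J v = {i, o} := by
    intro v hv
    obtain ⟨i, hi, hvi⟩ := mem_biUnion.1 hv
    have hv2 := h2 v (mem_biUnion.2 ⟨i, hUJ i hi, hvi⟩)
    have hi' : i ∈ stv it J v := mem_stv.2 ⟨hUJ i hi, hvi⟩
    have : ((stv it J v).erase i).Nonempty := by
      rw [← card_pos, card_erase_of_mem hi', hv2]; omega
    obtain ⟨o, ho⟩ := this
    rw [mem_erase, mem_stv] at ho
    obtain ⟨hoi, hoJ, hvo⟩ := ho
    have hoU : o ∉ U := fun h => hoi (huniq i hi o h v hvi hvo).symm
    have : ∃ m ∈ M, m ∈ it o := by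
      by_contra hcon
      push Not at hcon
      exact hoU (mem_filter.2 ⟨hoJ, hcon⟩)
    obtain ⟨m, hm, hmo⟩ := this
    refine ⟨i, o, m, hm, hi, hoJ, hvi, hvo, hmo, ?_⟩
    refine (eq_of_subset_of_card_le ?_ ?_).symm
    · intro k hk
      rw [mem_insert, mem_singleton] at hk
      rcases hk with rfl | rfl
      · exact hi'
      · exact mem_stv.2 ⟨hoJ, hvo⟩
    · rw [hv2, card_pair (Ne.symm hoi)]
  have hPM : ∀ v ∈ P, v ∉ M := by
    intro v hv hvM
    obtain ⟨i, hi, hvi⟩ := mem_biUnion.1 hv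
    exact hUM i hi v hvM hvi
  choose! iU o μ hμM hiU hoJ hvi hvo hμo hst using hPex
  have hoU : ∀ v ∈ P, ∀ i ∈ U, i ≠ o v := by
    intro v hv i hi h
    exact hUM i hi (μ v) (hμM v hv) (h ▸ hμo v hv)
  -- augmentation
  have haug : ∀ v ∈ P, ∀ w ∈ P, μ v = μ w → o v ≠ o w → iU v = iU w := by
    intro v hv w hw hμ hvw
    by_contra hne
    have hvw' : v ≠ w := fun h => hvw (by rw [h])
    have hnew : insert v (insert w (M.erase (μ v))) ∈
        (J.biUnion it).powerset.filter fun M => IsM it J M := by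
      refine mem_filter.2 ⟨mem_powerset.2 ?_, ?_⟩
      · intro z hz
        rcases mem_insert.1 hz with rfl | hz
        · exact mem_biUnion.2 ⟨_, hoJ _ hv, hvo _ hv⟩
        · rcases mem_insert.1 hz with rfl | hz
          · exact mem_biUnion.2 ⟨_, hoJ _ hw, hvo _ hw⟩
          · exact hMs (mem_of_mem_erase hz)
      · have kv : ∀ x ∈ P, μ x = μ v → ∀ z ∈ M.erase (μ v), ∀ k ∈ J, x ∈ it k → z ∈ it k →
            False := by
          intro x hx hxv z hz k hk hxk hzk
          have hk' : k ∈ stv it J x := mem_stv.2 ⟨hk, hxk⟩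
          rw [hst x hx, mem_insert, mem_singleton] at hk'
          rcases hk' with rfl | rfl
          · exact hUM _ (hiU x hx) z (mem_of_mem_erase hz) hzk
          · exact hMm z (mem_of_mem_erase hz) (μ x) (hμM x hx) (by rw [hxv]; exact ne_of_mem_erase hz)
              _ hk hzk (hμo x hx)
        have kvw : ∀ k ∈ J, v ∈ it k → w ∈ it k → False := by
          intro k hk hvk hwk
          have hk1 : k ∈ stv it J v := mem_stv.2 ⟨hk, hvk⟩
          have hk2 : k ∈ stv it J w := mem_stv.2 ⟨hk, hwk⟩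
          rw [hst v hv, mem_insert, mem_singleton] at hk1
          rw [hst w hw, mem_insert, mem_singleton] at hk2
          rcases hk1 with h1 | h1
          · rcases hk2 with h2 | h2
            · exact hne (h1.symm.trans h2)
            · exact hoU w hw _ (hiU v hv) (h1.symm.trans h2)
          · rcases hk2 with h2 | h2
            · exact hoU v hv _ (hiU w hw) (h2.symm.trans h1)
            · exact hvw (h1.symm.trans h2)
        intro a ha b hb hab k hk hak hbk
        have tri : ∀ x, x ∈ insert v (insert w (M.erase (μ v))) →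
            x = v ∨ x = w ∨ x ∈ M.erase (μ v) := by
          intro x hx
          rw [mem_insert, mem_insert] at hx
          exact hx
        rcases tri a ha with h | h | ha' <;> rcases tri b hb with h' | h' | hb'
        · exact hab (h.trans h'.symm)
        · rw [h] at hak; rw [h'] at hbk; exact kvw k hk hak hbk
        · rw [h] at hak; exact kv v hv rfl b hb' k hk hak hbk
        · rw [h] at hak; rw [h'] at hbk; exact kvw k hk hbk hak
        · exact hab (h.trans h'.symm)
        · rw [h] at hak; exact kv w hw hμ.symm b hb' k hk hak hbk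
        · rw [h'] at hbk; exact kv v hv rfl a ha' k hk hbk hak
        · rw [h'] at hbk; exact kv w hw hμ.symm a ha' k hk hbk hak
        · exact hMm a (mem_of_mem_erase ha') b (mem_of_mem_erase hb') hab k hk hak hbk
    have h4 := hmax _ hnew
    have h5 : w ∉ M.erase (μ v) := fun h => hPM w hw (mem_of_mem_erase h)
    have h6 : v ∉ insert w (M.erase (μ v)) := by
      rw [mem_insert]
      rintro (h | h)
      · exact hvw' h
      · exact hPM v hv (mem_of_mem_erase h)
    rw [card_insert_of_notMem h6, card_insert_of_notMem h5, card_erase_of_mem (hμM v hv)] at h4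
    have h7 : 0 < M.card := card_pos.2 ⟨_, hμM v hv⟩
    omega
  have hkey : ∀ a ∈ P, ∀ b ∈ P, ∀ c ∈ P, a ≠ b → μ a = μ b → μ a = μ c → o a = o b → o a ≠ o c →
      False := by
    intro a ha b hb c hc hab h1 h2' h3' h4
    have e1 := haug a ha c hc h2' h4
    have e2 := haug b hb c hc (h1.symm.trans h2') (by rw [← h3']; exact h4)
    refine hlin (iU a) (hUJ _ (hiU a ha)) (o a) (hoJ a ha) (hoU a ha _ (hiU a ha)) a b hab
      (hvi a ha) (hvo a ha) ?_ ?_
    · rw [e1, ← e2]; exact hvi b hb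
    · rw [h3']; exact hvo b hb
  have hfib : ∀ m ∈ M, (P.filter fun v => μ v = m).card ≤ 2 := by
    intro m hm
    by_contra hcon
    push Not at hcon
    obtain ⟨a, ha, b, hb, c, hc, hab, hac, hbc⟩ := Finset.two_lt_card.1 hcon
    rw [mem_filter] at ha hb hc
    obtain ⟨ha, hma⟩ := ha
    obtain ⟨hb, hmb⟩ := hb
    obtain ⟨hc, hmc⟩ := hc
    by_cases h1 : o a = o b
    · by_cases h4 : o a = o c
      · -- four items in one edge
        have hsub : ({m, a, b, c} : Finset V) ⊆ it (o a) := by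
          intro z hz
          simp only [mem_insert, mem_singleton] at hz
          rcases hz with rfl | rfl | rfl | rfl
          · rw [← hma]; exact hμo a ha
          · exact hvo _ ha
          · rw [h1]; exact hvo _ hb
          · rw [h4]; exact hvo _ hc
        have hcard := card_le_card hsub
        have hma' : m ≠ a := fun h => hPM a ha (h ▸ hm)
        have hmb' : m ≠ b := fun h => hPM b hb (h ▸ hm)
        have hmc' : m ≠ c := fun h => hPM c hc (h ▸ hm)
        rw [h3, card_insert_of_notMem (by simp [hma', hmb', hmc']),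
          card_insert_of_notMem (by simp [hab, hac]), card_pair hbc] at hcard
        omega
      · exact hkey a ha b hb c hc hab (hma.trans hmb.symm) (hma.trans hmc.symm) h1 h4
    · by_cases h4 : o a = o c
      · exact hkey a ha c hc b hb hac (hma.trans hmc.symm) (hma.trans hmb.symm) h4 h1
      · by_cases h5 : o b = o c
        · exact hkey b hb c hc a ha hbc (hmb.trans hmc.symm) (hmb.trans hma.symm) h5
            (fun h => h1 h.symm)
        · have hsub : ({o a, o b, o c} : Finset I) ⊆ stv it J m := by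
            intro z hz
            simp only [mem_insert, mem_singleton] at hz
            rcases hz with rfl | rfl | rfl
            · exact mem_stv.2 ⟨hoJ _ ha, hma ▸ hμo _ ha⟩
            · exact mem_stv.2 ⟨hoJ _ hb, hmb ▸ hμo _ hb⟩
            · exact mem_stv.2 ⟨hoJ _ hc, hmc ▸ hμo _ hc⟩
          have hcard := card_le_card hsub
          rw [h2 m (hMs hm), card_insert_of_notMem (by simp [h1, h4]), card_pair h5] at hcard
          omega
  have hPcard : P.card = 3 * U.card := by
    rw [hP, card_biUnion]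
    · rw [sum_congr rfl fun i _ => h3 i, sum_const, smul_eq_mul, mul_comm]
    · intro i hi j hj hij
      refine disjoint_left.2 fun v hvi' hvj' => ?_
      exact hij (huniq i hi j hj v hvi' hvj')
  have hPle : P.card ≤ 2 * M.card :=
    card_le_mul_card_image_of_maps_to (fun v hv => hμM v hv) 2 hfib
  -- counting
  have hJ2 : (M.biUnion fun v => stv it J v).card = 2 * M.card := by
    rw [card_biUnion]
    · rw [sum_congr rfl fun v hv => h2 v (hMs hv), sum_const, smul_eq_mul, mul_comm]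
    · intro u hu v hv huv
      refine disjoint_left.2 fun k hk1 hk2 => ?_
      rw [mem_stv] at hk1 hk2
      exact hMm u hu v hv huv k hk1.1 hk1.2 hk2.2
  have hJU : J = U ∪ M.biUnion fun v => stv it J v := by
    ext k
    rw [mem_union, mem_biUnion]
    constructor
    · intro hk
      by_cases h : ∀ v ∈ M, v ∉ it k
      · exact Or.inl (mem_filter.2 ⟨hk, h⟩)
      · push Not at h
        obtain ⟨v, hv, hvk⟩ := h
        exact Or.inr ⟨v, hv, mem_stv.2 ⟨hk, hvk⟩⟩
    · rintro (h | ⟨v, _, h⟩)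
      · exact hUJ k h
      · exact (mem_stv.1 h).1
  have hdis : Disjoint U (M.biUnion fun v => stv it J v) := by
    rw [disjoint_left]
    intro k hk1 hk2
    obtain ⟨v, hv, h⟩ := mem_biUnion.1 hk2
    exact hUM k hk1 v hv (mem_stv.1 h).2
  have hJcard : J.card = U.card + 2 * M.card := by
    conv_lhs => rw [hJU]
    rw [card_union_of_disjoint hdis, hJ2]
  have hdc : 3 * J.card = 2 * (J.biUnion it).card := by
    have h4 := Finset.sum_card_bipartiteAbove_eq_sum_card_bipartiteBelow (s := J)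
      (t := J.biUnion it) (fun i v => v ∈ it i)
    have h5 : ∀ i ∈ J, (bipartiteAbove (fun i v => v ∈ it i) (J.biUnion it) i).card = 3 := by
      intro i hi
      rw [← h3 i]
      congr 1
      ext v
      simp only [bipartiteAbove, mem_filter]
      exact ⟨fun h => h.2, fun h => ⟨mem_biUnion.2 ⟨i, hi, h⟩, h⟩⟩
    have h6 : ∀ v ∈ J.biUnion it, (bipartiteBelow (fun i v => v ∈ it i) J v).card = 2 :=
      fun v hv => h2 v hv
    rw [sum_congr rfl h5, sum_congr rfl h6, sum_const, sum_const, smul_eq_mul,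
      smul_eq_mul] at h4
    omega
  -- the transversal
  have hne : ∀ i, ∃ v, v ∈ it i := fun i => card_pos.1 (by rw [h3 i]; omega)
  choose c hc using hne
  refine ⟨M ∪ U.image c, ?_, ?_⟩
  · intro i hi
    by_cases h : ∀ v ∈ M, v ∉ it i
    · exact ⟨c i, mem_union_right _ (mem_image_of_mem _ (mem_filter.2 ⟨hi, h⟩)), hc i⟩
    · push Not at h
      obtain ⟨v, hv, hvi'⟩ := h
      exact ⟨v, mem_union_left _ hv, hvi'⟩
  · have h4 := card_union_le M (U.image c)
    have h5 : (U.image c).card ≤ U.card := card_image_le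
    omega

/-- one reduction step -/
theorem cm_red {it : I → Finset V} {J : Finset I} {T₀ : Finset V} {Y : Finset V}
    (hY : Y ⊆ J.biUnion it)
    (hYd : ∀ v ∈ Y, ∀ i ∈ J, v ∈ it i → ∃ t ∈ T₀, t ∈ it i)
    (hcard : 4 * T₀.card ≤ (J.filter fun i => ∃ t ∈ T₀, t ∈ it i).card + Y.card)
    (ih : ∃ T : Finset V, (∀ i ∈ J.filter (fun i => ¬ ∃ t ∈ T₀, t ∈ it i), ∃ v ∈ T, v ∈ it i) ∧
      4 * T.card ≤ (J.filter fun i => ¬ ∃ t ∈ T₀, t ∈ it i).card +
        ((J.filter fun i => ¬ ∃ t ∈ T₀, t ∈ it i).biUnion it).card) :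
    ∃ T : Finset V, (∀ i ∈ J, ∃ v ∈ T, v ∈ it i) ∧ 4 * T.card ≤ J.card + (J.biUnion it).card := by
  obtain ⟨T, hT, hTc⟩ := ih
  refine ⟨T₀ ∪ T, ?_, ?_⟩
  · intro i hi
    by_cases h : ∃ t ∈ T₀, t ∈ it i
    · obtain ⟨t, ht, hti⟩ := h
      exact ⟨t, mem_union_left _ ht, hti⟩
    · obtain ⟨v, hv, hvi⟩ := hT i (mem_filter.2 ⟨hi, h⟩)
      exact ⟨v, mem_union_right _ hv, hvi⟩
  · have h1 := card_union_le T₀ T
    have h2 := card_filter_add_card_filter_not (s := J) (fun i => ∃ t ∈ T₀, t ∈ it i)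
    have h3 : (Y ∪ (J.filter fun i => ¬ ∃ t ∈ T₀, t ∈ it i).biUnion it).card =
        Y.card + ((J.filter fun i => ¬ ∃ t ∈ T₀, t ∈ it i).biUnion it).card := by
      apply card_union_of_disjoint
      rw [disjoint_left]
      intro v hv hv2
      obtain ⟨i, hi, hvi⟩ := mem_biUnion.1 hv2
      rw [mem_filter] at hi
      exact hi.2 (hYd v hv i hi.1 hvi)
    have h4 : Y ∪ (J.filter fun i => ¬ ∃ t ∈ T₀, t ∈ it i).biUnion it ⊆ J.biUnion it := by
      apply union_subset hY
      exact biUnion_subset_biUnion_of_subset_left _ (filter_subset _ _)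
    have h5 := card_le_card h4
    omega

/-- **Chvátal–McDiarmid, Tuza** for 3-uniform hypergraphs -/
theorem cm {it : I → Finset V} (h3 : ∀ i, (it i).card = 3) (n : ℕ) :
    ∀ J : Finset I, J.card = n →
    ∃ T : Finset V, (∀ i ∈ J, ∃ v ∈ T, v ∈ it i) ∧ 4 * T.card ≤ J.card + (J.biUnion it).card := by
  classical
  induction n using Nat.strong_induction_on with
  | _ n IH =>
  intro J hJ
  have hlt : ∀ T₀ : Finset V, (∃ i ∈ J, ∃ t ∈ T₀, t ∈ it i) →
      ∃ T : Finset V, (∀ i ∈ J.filter (fun i => ¬ ∃ t ∈ T₀, t ∈ it i), ∃ v ∈ T, v ∈ it i) ∧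
      4 * T.card ≤ (J.filter fun i => ¬ ∃ t ∈ T₀, t ∈ it i).card +
        ((J.filter fun i => ¬ ∃ t ∈ T₀, t ∈ it i).biUnion it).card := by
    rintro T₀ ⟨i, hi, hit⟩
    refine IH _ ?_ _ rfl
    rw [← hJ]
    refine card_lt_card ⟨filter_subset _ _, fun h => ?_⟩
    exact (mem_filter.1 (h hi)).2 hit
  -- reduction with one item
  have hone : ∀ (u : V) (Y : Finset V), u ∈ J.biUnion it → Y ⊆ J.biUnion it →
      (∀ v ∈ Y, ∀ i ∈ J, v ∈ it i → u ∈ it i) → 4 ≤ (stv it J u).card + Y.card →
      ∃ T : Finset V, (∀ i ∈ J, ∃ v ∈ T, v ∈ it i) ∧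
        4 * T.card ≤ J.card + (J.biUnion it).card := by
    intro u Y hu hY hYd hc
    obtain ⟨i, hi, hui⟩ := mem_biUnion.1 hu
    have e : (J.filter fun i => ∃ t ∈ ({u} : Finset V), t ∈ it i) = stv it J u := by
      unfold stv
      refine filter_congr fun i _ => ?_
      simp
    refine cm_red (T₀ := {u}) (Y := Y) hY ?_ ?_ (hlt {u} ⟨i, hi, u, mem_singleton_self u, hui⟩)
    · intro v hv j hj hvj
      exact ⟨u, mem_singleton_self u, hYd v hv j hj hvj⟩
    · rw [e, card_singleton]; omega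
  by_cases c1 : ∃ v, 3 ≤ (stv it J v).card
  · obtain ⟨v, hv⟩ := c1
    have hv' : v ∈ J.biUnion it := by
      obtain ⟨i, hi⟩ := card_pos.1 (lt_of_lt_of_le (by omega) hv)
      exact mem_biUnion.2 ⟨i, (mem_stv.1 hi).1, (mem_stv.1 hi).2⟩
    refine hone v {v} hv' (singleton_subset_iff.2 hv') ?_ (by rw [card_singleton]; omega)
    intro w hw i _ hwi
    rw [mem_singleton] at hw
    exact hw ▸ hwi
  push Not at c1
  by_cases c2 : ∃ i ∈ J, ∃ v ∈ it i, (stv it J v).card ≤ 1
  · obtain ⟨i, hi, v, hvi, hv1⟩ := c2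
    have hvu : ∀ w, w ∈ it i → (stv it J w).card ≤ 1 → ∀ j ∈ J, w ∈ it j → j = i := by
      intro w hwi hw j hj hwj
      exact card_le_one.1 hw j (mem_stv.2 ⟨hj, hwj⟩) i (mem_stv.2 ⟨hi, hwi⟩)
    have hvJ : v ∈ J.biUnion it := mem_biUnion.2 ⟨i, hi, hvi⟩
    by_cases c3 : ∃ u ∈ it i, 2 ≤ (stv it J u).card
    · obtain ⟨u, hui, hu2⟩ := c3
      have huJ : u ∈ J.biUnion it := mem_biUnion.2 ⟨i, hi, hui⟩
      have huv : u ≠ v := by rintro rfl; omega
      refine hone u {u, v} huJ ?_ ?_ (by rw [card_pair huv]; omega)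
      · intro w hw
        rw [mem_insert, mem_singleton] at hw
        rcases hw with rfl | rfl
        · exact huJ
        · exact hvJ
      · intro w hw j hj hwj
        rw [mem_insert, mem_singleton] at hw
        rcases hw with rfl | rfl
        · exact hwj
        · rw [hvu w hvi hv1 j hj hwj]; exact hui
    · push Not at c3
      refine hone v (it i) hvJ (fun w hw => mem_biUnion.2 ⟨i, hi, hw⟩) ?_ ?_
      · intro w hw j hj hwj
        rw [hvu w hw (by have := c3 w hw; omega) j hj hwj]; exact hvi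
      · rw [h3 i]
        have : 0 < (stv it J v).card := card_pos.2 ⟨i, mem_stv.2 ⟨hi, hvi⟩⟩
        omega
  push Not at c2
  have h2 : ∀ v ∈ J.biUnion it, (stv it J v).card = 2 := by
    intro v hv
    obtain ⟨i, hi, hvi⟩ := mem_biUnion.1 hv
    have h4 := c2 i hi v hvi
    have h5 := c1 v
    omega
  by_cases c4 : ∀ i ∈ J, ∀ j ∈ J, i ≠ j → ∀ u v, u ≠ v → u ∈ it i → u ∈ it j → v ∈ it i →
      v ∈ it j → False
  · exact cm_lin h3 h2 c4
  have c5 : ∃ i ∈ J, ∃ j ∈ J, i ≠ j ∧ ∃ u v, u ≠ v ∧ u ∈ it i ∧ u ∈ it j ∧ v ∈ it i ∧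
      v ∈ it j := by
    by_contra hcon
    exact c4 fun i hi j hj hij u v huv h1 h2 h3 h4 =>
      hcon ⟨i, hi, j, hj, hij, u, v, huv, h1, h2, h3, h4⟩
  obtain ⟨i, hi, j, hj, hij, u, v, huv, hui, huj, hvi, hvj⟩ := c5
  have hset : ∀ w, w ∈ it i → w ∈ it j → stv it J w = {i, j} := by
    intro w hwi hwj
    have hw2 := h2 w (mem_biUnion.2 ⟨i, hi, hwi⟩)
    refine (eq_of_subset_of_card_le ?_ ?_).symm
    · intro k hk
      rw [mem_insert, mem_singleton] at hk
      rcases hk with rfl | rfl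
      · exact mem_stv.2 ⟨hi, hwi⟩
      · exact mem_stv.2 ⟨hj, hwj⟩
    · rw [hw2, card_pair hij]
  have huJ : u ∈ J.biUnion it := mem_biUnion.2 ⟨i, hi, hui⟩
  have hvJ : v ∈ J.biUnion it := mem_biUnion.2 ⟨i, hi, hvi⟩
  refine hone u {u, v} huJ ?_ ?_ (by rw [card_pair huv, h2 u huJ])
  · intro w hw
    rw [mem_insert, mem_singleton] at hw
    rcases hw with rfl | rfl
    · exact huJ
    · exact hvJ
  · intro w hw k hk hwk
    rw [mem_insert, mem_singleton] at hw
    rcases hw with rfl | rfl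
    · exact hwk
    · have : k ∈ stv it J w := mem_stv.2 ⟨hk, hwk⟩
      rw [hset w hvi hvj, mem_insert, mem_singleton] at this
      rcases this with rfl | rfl
      · exact hui
      · exact huj

end Pool.Agent.Lib.MP_9a58dc_co.UB
end

section

/-!
Cubic incidence systems: every item is in exactly three edges, every edge has exactly three items.
Balls with respect to the relation of sharing an edge.
-/

set_option autoImplicit false

namespace Pool.Agent.Lib.MP_9a58dc_co.UB

open Finset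

/-- A cubic incidence system: every item is in exactly three edges and every edge has exactly three
items. -/
structure Sys (V I : Type) [DecidableEq V] [DecidableEq I] where
  inc : V → Finset I
  it : I → Finset V
  mem : ∀ v i, i ∈ inc v ↔ v ∈ it i
  inc3 : ∀ v, (inc v).card = 3
  it3 : ∀ i, (it i).card = 3

variable {V I : Type} [DecidableEq V] [DecidableEq I] (S : Sys V I)

/-- the items sharing an edge with `v` -/
def Sys.nb (v : V) : Finset V := (S.inc v).biUnion S.it

theorem Sys.mem_nb {u v : V} : u ∈ S.nb v ↔ ∃ i, i ∈ S.inc u ∧ i ∈ S.inc v := by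
  unfold Sys.nb
  rw [mem_biUnion]
  constructor
  · rintro ⟨i, h1, h2⟩
    exact ⟨i, (S.mem u i).2 h2, h1⟩
  · rintro ⟨i, h1, h2⟩
    exact ⟨i, h2, (S.mem u i).1 h1⟩

theorem Sys.nb_symm {u v : V} : u ∈ S.nb v ↔ v ∈ S.nb u := by
  rw [S.mem_nb, S.mem_nb]
  exact exists_congr fun i => and_comm

theorem Sys.inc_nonempty (v : V) : (S.inc v).Nonempty := by
  rw [← Finset.card_pos, S.inc3]; omega

theorem Sys.self_mem_nb (v : V) : v ∈ S.nb v := by
  obtain ⟨i, hi⟩ := S.inc_nonempty v
  exact S.mem_nb.2 ⟨i, hi, hi⟩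

/-- balls -/
def Sys.ball (v : V) : ℕ → Finset V
  | 0 => {v}
  | r + 1 => (Sys.ball v r).biUnion S.nb

theorem Sys.ball_succ (v : V) (r : ℕ) : S.ball v (r + 1) = (S.ball v r).biUnion S.nb := rfl

theorem Sys.ball_mono_succ (v : V) (r : ℕ) : S.ball v r ⊆ S.ball v (r + 1) := by
  intro u hu
  rw [S.ball_succ, mem_biUnion]
  exact ⟨u, hu, S.self_mem_nb u⟩

theorem Sys.ball_mono (v : V) {r s : ℕ} (h : r ≤ s) : S.ball v r ⊆ S.ball v s := by
  induction h with
  | refl => exact Subset.refl _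
  | step _ ih => exact ih.trans (S.ball_mono_succ v _)

theorem Sys.mem_ball_trans {u v w : V} {r : ℕ} (h1 : u ∈ S.ball v r) (h2 : w ∈ S.nb u) :
    w ∈ S.ball v (r + 1) := by
  rw [S.ball_succ, mem_biUnion]
  exact ⟨u, h1, h2⟩

/-- first step decomposition of balls -/
theorem Sys.mem_ball_succ' {u v : V} (r : ℕ) :
    u ∈ S.ball v (r + 1) ↔ ∃ w ∈ S.nb v, u ∈ S.ball w r := by
  induction r generalizing u with
  | zero =>
    rw [S.ball_succ, mem_biUnion]
    simp only [Sys.ball, mem_singleton]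
    constructor
    · rintro ⟨w, rfl, h⟩
      exact ⟨u, h, rfl⟩
    · rintro ⟨w, h, rfl⟩
      exact ⟨v, rfl, h⟩
  | succ r ih =>
    rw [S.ball_succ v (r + 1), mem_biUnion]
    constructor
    · rintro ⟨w, h1, h2⟩
      obtain ⟨x, h3, h4⟩ := ih.1 h1
      exact ⟨x, h3, S.mem_ball_trans h4 h2⟩
    · rintro ⟨x, h3, h4⟩
      rw [S.ball_succ, mem_biUnion] at h4
      obtain ⟨w, h5, h6⟩ := h4
      exact ⟨w, ih.2 ⟨x, h3, h5⟩, h6⟩

theorem Sys.mem_ball_symm {u v : V} (r : ℕ) : u ∈ S.ball v r ↔ v ∈ S.ball u r := by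
  induction r generalizing u v with
  | zero => simp only [Sys.ball, mem_singleton]; exact eq_comm
  | succ r ih =>
    rw [S.mem_ball_succ', S.ball_succ, mem_biUnion]
    constructor
    · rintro ⟨w, h1, h2⟩
      exact ⟨w, ih.1 h2, S.nb_symm.1 h1⟩
    · rintro ⟨w, h1, h2⟩
      exact ⟨w, S.nb_symm.1 h2, ih.2 h1⟩

theorem Sys.card_sphere_one (v : V) : (S.ball v 1 \ S.ball v 0).card ≤ 6 := by
  have h1 : S.ball v 1 \ S.ball v 0 ⊆ (S.inc v).biUnion fun i => (S.it i).erase v := by
    intro u hu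
    rw [mem_sdiff, S.ball_succ, mem_biUnion] at hu
    obtain ⟨⟨w, h2, h3⟩, h4⟩ := hu
    simp only [Sys.ball, mem_singleton] at h2 h4
    subst h2
    obtain ⟨i, h5, h6⟩ := S.mem_nb.1 h3
    exact mem_biUnion.2 ⟨i, h6, mem_erase.2 ⟨h4, (S.mem u i).1 h5⟩⟩
  refine (card_le_card h1).trans ?_
  have h2 := card_biUnion_le_card_mul (S.inc v) (fun i => (S.it i).erase v) 2 (by
    intro i hi
    rw [card_erase_of_mem ((S.mem v i).1 hi), S.it3])
  rw [S.inc3] at h2
  exact h2

theorem Sys.card_sphere_succ (v : V) (r : ℕ) :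
    (S.ball v (r + 2) \ S.ball v (r + 1)).card ≤ 4 * (S.ball v (r + 1) \ S.ball v r).card := by
  -- for an item `w` in the sphere choose an edge meeting the smaller ball
  have h0 : ∀ w ∈ S.ball v (r + 1) \ S.ball v r, ∃ i ∈ S.inc w, S.it i ⊆ S.ball v (r + 1) := by
    intro w hw
    rw [mem_sdiff, S.ball_succ, mem_biUnion] at hw
    obtain ⟨⟨x, h1, h2⟩, _⟩ := hw
    obtain ⟨i, h3, h4⟩ := S.mem_nb.1 h2
    refine ⟨i, h3, fun u hu => S.mem_ball_trans h1 (S.mem_nb.2 ⟨i, (S.mem u i).2 hu, h4⟩)⟩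
  haveI : Nonempty I := ⟨(S.inc_nonempty v).choose⟩
  choose! f hf1 hf2 using h0
  have h1 : S.ball v (r + 2) \ S.ball v (r + 1) ⊆ (S.ball v (r + 1) \ S.ball v r).biUnion
      fun w => ((S.inc w).erase (f w)).biUnion fun i => (S.it i).erase w := by
    intro u hu
    rw [mem_sdiff, S.ball_succ, mem_biUnion] at hu
    obtain ⟨⟨w, h2, h3⟩, h4⟩ := hu
    obtain ⟨i, h5, h6⟩ := S.mem_nb.1 h3
    have hw : w ∈ S.ball v (r + 1) \ S.ball v r := by
      rw [mem_sdiff]
      refine ⟨h2, fun h7 => h4 (S.mem_ball_trans h7 h3)⟩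
    refine mem_biUnion.2 ⟨w, hw, mem_biUnion.2 ⟨i, mem_erase.2 ⟨?_, h6⟩, mem_erase.2
      ⟨?_, (S.mem u i).1 h5⟩⟩⟩
    · rintro rfl
      exact h4 (hf2 w hw ((S.mem u _).1 h5))
    · rintro rfl
      exact h4 h2
  refine (card_le_card h1).trans ?_
  rw [mul_comm]
  refine card_biUnion_le_card_mul _ _ 4 ?_
  intro w hw
  have h2 := card_biUnion_le_card_mul ((S.inc w).erase (f w)) (fun i => (S.it i).erase w) 2 (by
    intro i hi
    rw [card_erase_of_mem ((S.mem w i).1 (mem_of_mem_erase hi)), S.it3])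
  rw [card_erase_of_mem (hf1 w hw), S.inc3] at h2
  exact h2

theorem Sys.card_ball_three (v : V) : (S.ball v 3).card ≤ 127 := by
  have h1 := S.card_sphere_one v
  have h2 := S.card_sphere_succ v 0
  have h3 := S.card_sphere_succ v 1
  have e1 := card_sdiff_add_card_eq_card (S.ball_mono_succ v 0)
  have e2 := card_sdiff_add_card_eq_card (S.ball_mono_succ v 1)
  have e3 := card_sdiff_add_card_eq_card (S.ball_mono_succ v 2)
  have e0 : (S.ball v 0).card = 1 := by simp [Sys.ball]
  norm_num at h1 h2 h3 e1 e2 e3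
  omega

end Pool.Agent.Lib.MP_9a58dc_co.UB
end
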